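import Mathlib
import Pool.Agent.H41.OVO.Defs

set_option autoImplicit false
set_option linter.unusedSectionVars false

/-! SPAN lemma, slot lemma, exchange, E18, (L) in the one-space interface of helper41. -/

namespace Pool.OVE53

open Finset Pool.OVE

variable {F : Type} [Field F] {h : ℕ} [NeZero h]

theorem brE_apply (i : Fin 4) : brE i = br i := rfl

theorem rho_mul (m : ZMod h) (A B : Matrix (Fin 4) (Fin 4) F) (p : E F h) :
    rho m (A * B) p = rho m A (rho m B p) := by
  rw [map_mul]; rfl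

theorem rho_one (m : ZMod h) : (rho m (1 : Matrix (Fin 4) (Fin 4) F) : Module.End F (E F h)) =
    LinearMap.id := by
  rw [map_one]; rfl

theorem rho_sum {ι : Type} (s : Finset ι) (m : ZMod h) (A : ι → Matrix (Fin 4) (Fin 4) F)
    (p : E F h) : rho m (∑ i ∈ s, A i) p = ∑ i ∈ s, rho m (A i) p := by
  rw [map_sum, LinearMap.sum_apply]

/-- commutes with the digit `m` -/
def Com (m : ZMod h) (X : Module.End F (E F h)) : Prop :=
  ∀ (A : Matrix (Fin 4) (Fin 4) F) (p : E F h), X (rho m A p) = rho m A (X p)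


/-- the word without the digit `m` -/
def hatO (m : ZMod h) (y : Fin 4 → F) (w : ZMod h → Fin 4) : F :=
  ∏ i ∈ Finset.univ.erase m, (y (w i)) ^ (2 ^ i.val)

theorem hat_eq (m : ZMod h) (y : Fin 4 → F) (w : ZMod h → Fin 4) :
    hat y w = (y (w m)) ^ (2 ^ m.val) * hatO m y w := by
  unfold hat pr pw hatO
  rw [Finset.mul_prod_erase Finset.univ (fun i : ZMod h => (y (w i)) ^ (2 ^ i.val)) (Finset.mem_univ m)]

theorem hatO_update (m : ZMod h) (y : Fin 4 → F) (w : ZMod h → Fin 4) (l : Fin 4) :
    hatO m y (Function.update w m l) = hatO m y w := by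
  unfold hatO
  refine Finset.prod_congr rfl fun i hi => ?_
  rw [Function.update_of_ne (Finset.ne_of_mem_erase hi)]

theorem hat_update (m : ZMod h) (y : Fin 4 → F) (w : ZMod h → Fin 4) (l : Fin 4) :
    hat y (Function.update w m l) = (y l) ^ (2 ^ m.val) * hatO m y w := by
  rw [hat_eq m, hatO_update, Function.update_self]

theorem rho_hat (m : ZMod h) (A : Matrix (Fin 4) (Fin 4) F) (y : Fin 4 → F)
    (w : ZMod h → Fin 4) :
    rho m A (hat y) w = (∑ l, A (w m) l * (y l) ^ (2 ^ m.val)) * hatO m y w := by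
  rw [rho_apply, Finset.sum_mul]
  refine Finset.sum_congr rfl fun l _ => ?_
  rw [hat_update]
  ring

theorem hat_zero (y : Fin 4 → F) (hy : y = 0) : (hat y : E F h) = 0 := by
  funext w
  rw [hat_eq (0 : ZMod h), hy]
  simp

/-- SPAN lemma: cancel the letter at the digit `m`. -/
theorem span_lemma (Om : Set (Fin 4 → F))
    (hsp : Submodule.span F ((hat (h := h)) '' Om) = ⊤) (m : ZMod h)
    (X : Fin 4 → Module.End F (E F h)) (hX : ∀ i, Com m (X i))
    (h0 : ∀ y ∈ Om, ∑ i, (y i) ^ (2 ^ m.val) • X i (hat y) = 0) : ∀ i, X i = 0 := by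
  classical
  -- the operator sum X i ∘ rho (v e_i^T) vanishes
  have key : ∀ v : Fin 4 → F, ∀ p : E F h,
      ∑ i, X i (rho m (Matrix.vecMulVec v (Pi.single i 1)) p) = 0 := by
    intro v p
    have hlin : (∑ i, (X i).comp (rho m (Matrix.vecMulVec v (Pi.single i (1 : F))))) = 0 := by
      apply LinearMap.ext_on hsp
      rintro _ ⟨y, hy, rfl⟩
      simp only [LinearMap.coe_sum, Finset.sum_apply, LinearMap.comp_apply, LinearMap.zero_apply]
      by_cases hy0 : y = 0
      · rw [hat_zero y hy0]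
        simp
      · obtain ⟨l0, hl0⟩ : ∃ l, y l ≠ 0 := by
          by_contra hcon
          push Not at hcon
          exact hy0 (funext hcon)
        have hl1 : (y l0) ^ (2 ^ m.val) ≠ 0 := pow_ne_zero _ hl0
        -- rho (v e_i^T) hat = y_i^(m) * rho (v lam^T) hat
        have e1 : ∀ i, rho m (Matrix.vecMulVec v (Pi.single i (1 : F))) (hat y) =
            (y i) ^ (2 ^ m.val) •
              rho m (Matrix.vecMulVec v (Pi.single l0 ((y l0) ^ (2 ^ m.val))⁻¹)) (hat y) := by
          intro i
          funext w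
          rw [Pi.smul_apply, rho_hat, rho_hat]
          have e2 : ∑ l, Matrix.vecMulVec v (Pi.single i (1 : F)) (w m) l * (y l) ^ (2 ^ m.val) =
              v (w m) * (y i) ^ (2 ^ m.val) := by
            rw [Finset.sum_eq_single i]
            · simp [Matrix.vecMulVec_apply]
            · intro b _ hb
              simp [Matrix.vecMulVec_apply, Pi.single_eq_of_ne hb]
            · simp
          have e3 : ∑ l, Matrix.vecMulVec v (Pi.single l0 ((y l0) ^ (2 ^ m.val))⁻¹) (w m) l *
              (y l) ^ (2 ^ m.val) = v (w m) := by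
            rw [Finset.sum_eq_single l0]
            · simp [Matrix.vecMulVec_apply, hl1]
            · intro b _ hb
              simp [Matrix.vecMulVec_apply, Pi.single_eq_of_ne hb]
            · simp
          rw [e2, e3, smul_eq_mul]
          ring
        have e4 : ∀ i, X i (rho m (Matrix.vecMulVec v (Pi.single i (1 : F))) (hat y)) =
            rho m (Matrix.vecMulVec v (Pi.single l0 ((y l0) ^ (2 ^ m.val))⁻¹))
              ((y i) ^ (2 ^ m.val) • X i (hat y)) := by
          intro i
          rw [e1, map_smul, hX i, ← map_smul]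
        rw [Finset.sum_congr rfl fun i _ => e4 i, ← map_sum, h0 y hy, map_zero]
    have := LinearMap.congr_fun hlin p
    simpa using this
  intro l
  refine LinearMap.ext fun p => ?_
  have hid : p = ∑ r, rho m (Matrix.vecMulVec (Pi.single r (1 : F)) (Pi.single r (1 : F))) p := by
    have e1 : (∑ r : Fin 4, Matrix.vecMulVec (Pi.single r (1 : F)) (Pi.single r (1 : F))) =
        (1 : Matrix (Fin 4) (Fin 4) F) := by
      ext a b
      rw [Matrix.sum_apply]
      fin_cases a <;> fin_cases b <;> simp [Matrix.vecMulVec_apply, Fin.sum_univ_four, Pi.single_apply]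
    rw [← rho_sum, e1, rho_one]
    rfl
  have hr : ∀ r : Fin 4, X l (rho m (Matrix.vecMulVec (Pi.single r (1 : F)) (Pi.single r (1 : F))) p) = 0 := by
    intro r
    have k1 := key (Pi.single r 1)
      (rho m (Matrix.vecMulVec (Pi.single l (1 : F)) (Pi.single r (1 : F))) p)
    rw [Finset.sum_eq_single l] at k1
    · rw [← rho_mul] at k1
      have e2 : Matrix.vecMulVec (Pi.single r (1 : F)) (Pi.single l (1 : F)) *
          Matrix.vecMulVec (Pi.single l (1 : F)) (Pi.single r (1 : F)) =
          Matrix.vecMulVec (Pi.single r (1 : F)) (Pi.single r (1 : F)) := by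
        rw [Matrix.vecMulVec_mul_vecMulVec]
        simp
      rw [e2] at k1
      exact k1
    · intro b _ hb
      rw [← rho_mul]
      have e2 : Matrix.vecMulVec (Pi.single r (1 : F)) (Pi.single b (1 : F)) *
          Matrix.vecMulVec (Pi.single l (1 : F)) (Pi.single r (1 : F)) = 0 := by
        rw [Matrix.vecMulVec_mul_vecMulVec]
        have : (Pi.single b (1 : F) : Fin 4 → F) ⬝ᵥ (Pi.single l (1 : F)) = 0 := by
          simp [Pi.single_apply, hb.symm]
        rw [this]
        simp
      rw [e2]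
      have : rho m (0 : Matrix (Fin 4) (Fin 4) F) p = 0 := by
        funext w
        simp [rho_apply]
      rw [this, map_zero]
    · simp
  rw [hid, map_sum, Finset.sum_congr rfl fun r _ => hr r]
  simp



theorem jj0 : (jj (F := F) 0) = !![0, 0, 1, 0; 0, 0, 0, 1; 0, 0, 0, 0; 0, 0, 0, 0] := rfl
theorem jj1 : (jj (F := F) 1) = !![0, 1, 0, 0; 0, 0, 0, 0; 0, 0, 0, 1; 0, 0, 0, 0] := rfl
theorem jj2 : (jj (F := F) 2) = !![0, 0, 0, 0; 1, 0, 0, 0; 0, 0, 0, 0; 0, 0, 1, 0] := rfl
theorem jj3 : (jj (F := F) 3) = !![0, 0, 0, 0; 0, 0, 0, 0; 1, 0, 0, 0; 0, 1, 0, 0] := rfl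

/-- (g1) -/
theorem g1 [CharP F 2] (e y : Fin 4 → F) (mu : F)
    (hj : ∀ l, ∑ b, e b * ∑ l', jj (F := F) b l l' * y l' = mu * y l) (b : Fin 4) :
    Qf y * e b = ∑ c, (y c) ^ 2 * ∑ b', jj (F := F) c b b' * e b' := by
  have h2 : (2 : F) = 0 := CharTwo.two_eq_zero
  have h0 := hj 0
  have h1 := hj 1
  have h2' := hj 2
  have h3 := hj 3
  simp [Fin.sum_univ_four, jj0, jj1, jj2, jj3] at h0 h1 h2' h3
  fin_cases b
  · simp [Fin.sum_univ_four, jj0, jj1, jj2, jj3, Qf]
    linear_combination (y 1) * h0 + (y 0) * h1 - (y 1 ^ 2 * e 1 + y 0 ^ 2 * e 2) * h2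
      + (mu * y 0 * y 1) * h2
  · simp [Fin.sum_univ_four, jj0, jj1, jj2, jj3, Qf]
    linear_combination (y 2) * h0 + (y 0) * h2' - (y 2 ^ 2 * e 0 + y 0 ^ 2 * e 3) * h2
      + (mu * y 0 * y 2) * h2
  · simp [Fin.sum_univ_four, jj0, jj1, jj2, jj3, Qf]
    linear_combination (y 3) * h1 + (y 1) * h3 - (y 3 ^ 2 * e 0 + y 1 ^ 2 * e 3) * h2
      + (mu * y 1 * y 3) * h2
  · simp [Fin.sum_univ_four, jj0, jj1, jj2, jj3, Qf]
    linear_combination (y 3) * h2' + (y 2) * h3 - (y 3 ^ 2 * e 1 + y 2 ^ 2 * e 2) * h2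
      + (mu * y 2 * y 3) * h2

/-- a vector `u` of `E` has the factor `y^(m)` at the digit `m` -/
def Fac (m : ZMod h) (y : Fin 4 → F) (u : E F h) : Prop :=
  ∀ w l l', (y l') ^ (2 ^ m.val) * u (Function.update w m l) =
    (y l) ^ (2 ^ m.val) * u (Function.update w m l')

theorem fac_hat (m : ZMod h) (y : Fin 4 → F) : Fac m y (hat y) := by
  intro w l l'
  rw [hat_update, hat_update]
  ring

theorem fac_op (m : ZMod h) (y : Fin 4 → F) (X : Module.End F (E F h)) (hX : Com m X)
    (u : E F h) (hu : Fac m y u) : Fac m y (X u) := by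
  intro w l l'
  -- the matrix e_l (y_l' e_l^* - y_l e_l'^*)
  have hz : rho m (Matrix.vecMulVec (Pi.single l (1 : F))
      ((y l') ^ (2 ^ m.val) • Pi.single l (1 : F) - (y l) ^ (2 ^ m.val) • Pi.single l' (1 : F))) u
      = 0 := by
    funext w'
    rw [rho_apply, Pi.zero_apply]
    have e1 : ∀ r : Fin 4, Matrix.vecMulVec (Pi.single l (1 : F))
      ((y l') ^ (2 ^ m.val) • Pi.single l (1 : F) - (y l) ^ (2 ^ m.val) • Pi.single l' (1 : F))
        (w' m) r * u (Function.update w' m r) =
        (Pi.single l (1 : F) : Fin 4 → F) (w' m) *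
          ((y l') ^ (2 ^ m.val) * ((Pi.single l (1 : F) : Fin 4 → F) r * u (Function.update w' m r)) -
           (y l) ^ (2 ^ m.val) * ((Pi.single l' (1 : F) : Fin 4 → F) r * u (Function.update w' m r))) := by
      intro r
      rw [Matrix.vecMulVec_apply]
      simp only [Pi.sub_apply, Pi.smul_apply, smul_eq_mul]
      ring
    rw [Finset.sum_congr rfl fun r _ => e1 r, ← Finset.mul_sum, Finset.sum_sub_distrib,
      ← Finset.mul_sum, ← Finset.mul_sum]
    have e2 : ∀ i : Fin 4, ∑ r, (Pi.single i (1 : F) : Fin 4 → F) r * u (Function.update w' m r) =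
        u (Function.update w' m i) := by
      intro i
      rw [Finset.sum_eq_single i]
      · simp
      · intro b _ hb
        rw [Pi.single_eq_of_ne hb, zero_mul]
      · simp
    rw [e2, e2, hu w' l l', sub_self, mul_zero]
  have h1 := congrArg X hz
  rw [hX, map_zero] at h1
  have h2 := congrFun h1 (Function.update w m l)
  rw [rho_apply, Pi.zero_apply] at h2
  simp only [Function.update_self, Function.update_idem] at h2
  have e1 : ∀ r : Fin 4, Matrix.vecMulVec (Pi.single l (1 : F))
      ((y l') ^ (2 ^ m.val) • Pi.single l (1 : F) - (y l) ^ (2 ^ m.val) • Pi.single l' (1 : F))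
        l r * X u (Function.update w m r) =
          ((y l') ^ (2 ^ m.val) * ((Pi.single l (1 : F) : Fin 4 → F) r * X u (Function.update w m r)) -
           (y l) ^ (2 ^ m.val) * ((Pi.single l' (1 : F) : Fin 4 → F) r * X u (Function.update w m r))) := by
    intro r
    rw [Matrix.vecMulVec_apply]
    simp only [Pi.sub_apply, Pi.smul_apply, smul_eq_mul, Pi.single_eq_same, one_mul]
    ring
  rw [Finset.sum_congr rfl fun r _ => e1 r, Finset.sum_sub_distrib,
      ← Finset.mul_sum, ← Finset.mul_sum] at h2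
  have e2 : ∀ i : Fin 4, ∑ r, (Pi.single i (1 : F) : Fin 4 → F) r * X u (Function.update w m r) =
      X u (Function.update w m i) := by
    intro i
    rw [Finset.sum_eq_single i]
    · simp
    · intro b _ hb
      rw [Pi.single_eq_of_ne hb, zero_mul]
    · simp
  rw [e2, e2] at h2
  exact sub_eq_zero.mp h2

theorem fac_add (m : ZMod h) (y : Fin 4 → F) (u v : E F h) (hu : Fac m y u) (hv : Fac m y v) :
    Fac m y (u + v) := by
  intro w l l'
  simp only [Pi.add_apply, mul_add, hu w l l', hv w l l']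

theorem fac_smul (m : ZMod h) (y : Fin 4 → F) (c : F) (u : E F h) (hu : Fac m y u) :
    Fac m y (c • u) := by
  intro w l l'
  simp only [Pi.smul_apply, smul_eq_mul]
  linear_combination c * hu w l l'

theorem fac_sum {ι : Type} (s : Finset ι) (m : ZMod h) (y : Fin 4 → F) (u : ι → E F h)
    (hu : ∀ i, Fac m y (u i)) : Fac m y (∑ i ∈ s, u i) := by
  intro w l l'
  simp only [Finset.sum_apply, Finset.mul_sum]
  exact Finset.sum_congr rfl fun i _ => hu i w l l'

/-- (g2) the slot lemma, vector form. -/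
theorem slot_vec [CharP F 2] (k : ZMod h) (y : Fin 4 → F) (u : Fin 4 → E F h) (u0 : E F h)
    (hu : ∀ b, Fac k y (u b)) (hu0 : Fac k y u0) (mu : F)
    (hE : ∑ b, rho k (jj (F := F) b) (u b) + u0 = mu • hat y)
    (hy : y ≠ 0) (b : Fin 4) :
    (Qf y) ^ (2 ^ k.val) • u b = ∑ c, ((y c) ^ (2 ^ k.val)) ^ 2 • ∑ b', jj (F := F) c b b' • u b' := by
  obtain ⟨l0, hl0⟩ : ∃ l, y l ≠ 0 := by
    by_contra hcon
    push Not at hcon
    exact hy (funext hcon)
  have hl1 : (y l0) ^ (2 ^ k.val) ≠ 0 := pow_ne_zero _ hl0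
  funext w
  -- the constants
  set c : Fin 4 → F := fun b => u b (Function.update w k l0) / (y l0) ^ (2 ^ k.val) with hc
  have hcb : ∀ b l, u b (Function.update w k l) = c b * (y l) ^ (2 ^ k.val) := by
    intro b l
    have := hu b w l l0
    rw [hc]
    field_simp
    linear_combination this
  have hc0 : ∀ l, u0 (Function.update w k l) =
      u0 (Function.update w k l0) / (y l0) ^ (2 ^ k.val) * (y l) ^ (2 ^ k.val) := by
    intro l
    have := hu0 w l l0
    field_simp
    linear_combination this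
  have hj : ∀ l, ∑ b, c b * ∑ l', jj (F := F) b l l' * (y l') ^ (2 ^ k.val) =
      (mu * hatO k y w - u0 (Function.update w k l0) / (y l0) ^ (2 ^ k.val)) *
        (y l) ^ (2 ^ k.val) := by
    intro l
    have h1 := congrFun hE (Function.update w k l)
    rw [Pi.add_apply, Finset.sum_apply, Pi.smul_apply, hat_update, hc0, smul_eq_mul] at h1
    have h2 : ∀ b, rho k (jj (F := F) b) (u b) (Function.update w k l) =
        c b * ∑ l', jj (F := F) b l l' * (y l') ^ (2 ^ k.val) := by
      intro b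
      rw [rho_apply, Finset.mul_sum]
      refine Finset.sum_congr rfl fun l' _ => ?_
      rw [Function.update_self, Function.update_idem, hcb]
      ring
    rw [Finset.sum_congr rfl fun b _ => h2 b] at h1
    linear_combination h1
  have hg := g1 c (fun l => (y l) ^ (2 ^ k.val)) _ hj b
  have hQ : Qf (fun l => (y l) ^ (2 ^ k.val)) = (Qf y) ^ (2 ^ k.val) := by
    unfold Qf
    rw [add_pow_char_pow, mul_pow, mul_pow]
  rw [hQ] at hg
  have hw : ∀ b, u b w = c b * (y (w k)) ^ (2 ^ k.val) := by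
    intro b
    have := hcb b (w k)
    rwa [Function.update_eq_self] at this
  simp only [Pi.smul_apply, Finset.sum_apply, smul_eq_mul]
  rw [hw b, ← mul_assoc, hg, Finset.sum_mul]
  refine Finset.sum_congr rfl fun d _ => ?_
  rw [mul_assoc, Finset.sum_mul]
  refine congrArg _ (Finset.sum_congr rfl fun b' _ => ?_)
  rw [hw b']
  ring



/-- the swap `(w, l) ↦ (update w m l, w m)` -/
def swp (m : ZMod h) : ((ZMod h → Fin 4) × Fin 4) ≃ ((ZMod h → Fin 4) × Fin 4) where
  toFun q := (Function.update q.1 m q.2, q.1 m)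
  invFun q := (Function.update q.1 m q.2, q.1 m)
  left_inv q := by
    ext <;> simp
  right_inv q := by
    ext <;> simp

theorem bf_rho (m : ZMod h) (A : Matrix (Fin 4) (Fin 4) F) (p q : E F h) :
    bf (rho m A p) q = bf p (rho m (adj A) q) := by
  unfold bf
  have e1 : ∑ w : ZMod h → Fin 4, rho m A p w * q (wbr w) =
      ∑ x : (ZMod h → Fin 4) × Fin 4,
        A (x.1 m) x.2 * p (Function.update x.1 m x.2) * q (wbr x.1) := by
    rw [Fintype.sum_prod_type]
    refine Finset.sum_congr rfl fun w _ => ?_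
    rw [rho_apply, Finset.sum_mul]
  have e2 : ∑ w : ZMod h → Fin 4, p w * rho m (adj A) q (wbr w) =
      ∑ x : (ZMod h → Fin 4) × Fin 4,
        p x.1 * (A x.2 (x.1 m) * q (wbr (Function.update x.1 m x.2))) := by
    rw [Fintype.sum_prod_type]
    refine Finset.sum_congr rfl fun w _ => ?_
    rw [rho_apply, Finset.mul_sum]
    rw [← Equiv.sum_comp brE]
    refine Finset.sum_congr rfl fun l _ => ?_
    rw [brE_apply, wbr_update]
    simp [adj, wbr]
  rw [e1, e2, ← Equiv.sum_comp (swp m)]
  refine Finset.sum_congr rfl fun x _ => ?_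
  simp only [swp, Equiv.coe_fn_mk, Function.update_self, Function.update_idem,
    Function.update_eq_self]
  ring

theorem bf_add_left (p q r : E F h) : bf (p + q) r = bf p r + bf q r := by
  simp [bf, add_mul, Finset.sum_add_distrib]

theorem bf_smul_left (c : F) (p q : E F h) : bf (c • p) q = c * bf p q := by
  simp only [bf, Pi.smul_apply, smul_eq_mul, Finset.mul_sum]
  exact Finset.sum_congr rfl fun w _ => by ring

theorem bf_smul_right (c : F) (p q : E F h) : bf p (c • q) = c * bf p q := by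
  simp only [bf, Pi.smul_apply, smul_eq_mul, Finset.mul_sum]
  exact Finset.sum_congr rfl fun w _ => by ring

theorem bf_sum_left {ι : Type} (s : Finset ι) (p : ι → E F h) (q : E F h) :
    bf (∑ i ∈ s, p i) q = ∑ i ∈ s, bf (p i) q := by
  simp only [bf, Finset.sum_apply, Finset.sum_mul]
  rw [Finset.sum_comm]

theorem bf_sum_right {ι : Type} (s : Finset ι) (p : E F h) (q : ι → E F h) :
    bf p (∑ i ∈ s, q i) = ∑ i ∈ s, bf p (q i) := by
  simp only [bf, Finset.sum_apply, Finset.mul_sum]
  rw [Finset.sum_comm]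

theorem bf_nondeg (p : E F h) (hp : ∀ q, bf p q = 0) : p = 0 := by
  funext w
  have := hp (Pi.single (wbr w) 1)
  unfold bf at this
  rw [Finset.sum_eq_single w] at this
  · simpa using this
  · intro b _ hb
    rw [Pi.single_eq_of_ne, mul_zero]
    intro hcon
    apply hb
    have := congrArg wbr hcon
    simpa using this
  · simp

theorem bf_span (Om : Set (Fin 4 → F)) (hsp : Submodule.span F ((hat (h := h)) '' Om) = ⊤)
    (p : E F h) (hp : ∀ y ∈ Om, bf p (hat y) = 0) : p = 0 := by
  apply bf_nondeg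
  let L : E F h →ₗ[F] F :=
    { toFun := fun q => bf p q
      map_add' := fun q r => by simp [bf, mul_add, Finset.sum_add_distrib]
      map_smul' := fun c q => by simp [bf_smul_right] }
  have : L = 0 := by
    apply LinearMap.ext_on hsp
    rintro _ ⟨y, hy, rfl⟩
    exact hp y hy
  intro q
  exact LinearMap.congr_fun this q

/-- replace the letter at the digit `m` -/
def rep (F : Type) [Field F] (l r : Fin 4) : Matrix (Fin 4) (Fin 4) F :=
  Matrix.vecMulVec (Pi.single l (1 : F)) (Pi.single r (1 : F))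

theorem rep_apply (l r i j : Fin 4) : rep F l r i j = if i = l ∧ j = r then 1 else 0 := by
  unfold rep
  rw [Matrix.vecMulVec_apply, Pi.single_apply, Pi.single_apply]
  by_cases h1 : i = l <;> by_cases h2 : j = r <;> simp [h1, h2]

theorem rep_mul (a b c d : Fin 4) : rep F a b * rep F c d = if b = c then rep F a d else 0 := by
  ext i j
  rw [Matrix.mul_apply]
  simp only [rep_apply]
  by_cases h1 : b = c
  · subst h1
    rw [if_pos rfl, Finset.sum_eq_single b]
    · by_cases h2 : i = a <;> by_cases h3 : j = d <;> simp [rep_apply, h2, h3]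
    · intro x _ hx
      simp [hx]
    · simp
  · rw [if_neg h1]
    apply Finset.sum_eq_zero
    intro x _
    by_cases h2 : x = b
    · subst h2
      simp [h1]
    · simp [h2]

theorem rep_sum : ∑ r, rep F r r = 1 := by
  ext a b
  rw [Matrix.sum_apply, Fin.sum_univ_four]
  fin_cases a <;> fin_cases b <;> simp [rep_apply]

/-- exchange -/
theorem exch (m : ZMod h) (y : Fin 4 → F) (c l r : Fin 4) (p : E F h) :
    (y c) ^ (2 ^ m.val) * bf (rho m (rep F l r) p) (hat y) =
      (y (br l)) ^ (2 ^ m.val) * bf (rho m (rep F (br c) r) p) (hat y) := by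
  rw [bf_rho, bf_rho]
  have e1 : ∀ l : Fin 4, rho m (adj (rep F l r)) (hat y) = (y (br l)) ^ (2 ^ m.val) •
      (fun w : ZMod h → Fin 4 => if w m = br r then hatO m y w else 0) := by
    intro l
    funext w
    rw [rho_hat, Pi.smul_apply, smul_eq_mul]
    have e2 : ∀ j, adj (rep F l r) (w m) j * (y j) ^ (2 ^ m.val) =
        if j = br l then (if w m = br r then (y (br l)) ^ (2 ^ m.val) else 0) else 0 := by
      intro j
      unfold adj
      rw [rep_apply]
      by_cases h1 : j = br l
      · subst h1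
        by_cases h2 : w m = br r
        · simp [h2]
        · have : ¬ (br (w m) = r) := fun hc => h2 (by rw [← hc, br_br])
          simp [h2, this]
      · have : ¬ (br j = l) := fun hc => h1 (by rw [← hc, br_br])
        simp [h1, this]
    rw [Finset.sum_congr rfl fun j _ => e2 j, Finset.sum_ite_eq' ]
    by_cases h2 : w m = br r <;> simp [h2]
  rw [e1, e1, bf_smul_right, bf_smul_right, br_br]
  ring

theorem exists_ne (y : Fin 4 → F) (hy : y ≠ 0) : ∃ l, y (br l) ≠ 0 := by
  by_contra hcon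
  push Not at hcon
  apply hy
  funext l
  have := hcon (br l)
  rwa [br_br] at this

/-- SPAN' : pairing form. -/
theorem span_pair (Om : Set (Fin 4 → F))
    (hsp : Submodule.span F ((hat (h := h)) '' Om) = ⊤) (m : ZMod h)
    (X : Fin 4 → Module.End F (E F h)) (hX : ∀ i, Com m (X i))
    (h0 : ∀ y ∈ Om, ∀ p, ∑ i, (y i) ^ (2 ^ m.val) * bf (X i p) (hat y) = 0) :
    ∀ i, X i = 0 := by
  have key : ∀ (r : Fin 4) (p : E F h), ∑ i, rho m (rep F (br i) r) (X i p) = 0 := by
    intro r p
    apply bf_span Om hsp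
    intro y hy
    by_cases hy0 : y = 0
    · rw [hat_zero y hy0]
      simp [bf]
    · obtain ⟨l, hl⟩ := exists_ne y hy0
      have h1 := h0 y hy (rho m (rep F l r) p)
      have e1 : ∀ i, (y i) ^ (2 ^ m.val) * bf (X i (rho m (rep F l r) p)) (hat y) =
          (y (br l)) ^ (2 ^ m.val) * bf (rho m (rep F (br i) r) (X i p)) (hat y) := by
        intro i
        rw [hX i, exch]
      rw [Finset.sum_congr rfl fun i _ => e1 i, ← Finset.mul_sum, ← bf_sum_left] at h1
      exact (mul_eq_zero.mp h1).resolve_left (pow_ne_zero _ hl)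
  intro i
  refine LinearMap.ext fun p => ?_
  have h2 : ∀ r, rho m (rep F r r) (X i p) = 0 := by
    intro r
    have h3 := congrArg (rho m (rep F r (br i))) (key r p)
    rw [map_sum, map_zero] at h3
    rw [← h3, Finset.sum_eq_single i]
    · rw [← rho_mul, rep_mul, if_pos rfl]
    · intro j _ hj
      rw [← rho_mul, rep_mul, if_neg (fun hc => hj (br_inj hc).symm)]
      funext w
      simp [rho_apply]
    · simp
  have h4 : X i p = ∑ r, rho m (rep F r r) (X i p) := by
    rw [← rho_sum, rep_sum, rho_one]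
    rfl
  rw [h4, Finset.sum_congr rfl fun r _ => h2 r]
  simp



/-- self-adjoint operator -/
def SA (X : Module.End F (E F h)) : Prop := ∀ p q, bf (X p) q = bf p (X q)

theorem com_rho (m k : ZMod h) (hmk : m ≠ k) (A : Matrix (Fin 4) (Fin 4) F) :
    Com m (rho k A) := by
  intro B p
  funext w
  simp only [rho_apply, Finset.mul_sum, Function.update_of_ne hmk, Function.update_of_ne hmk.symm]
  rw [Finset.sum_comm]
  refine Finset.sum_congr rfl fun l _ => Finset.sum_congr rfl fun l' _ => ?_
  rw [Function.update_comm hmk]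
  ring

theorem com_comp (m : ZMod h) (X Y : Module.End F (E F h)) (hX : Com m X) (hY : Com m Y) :
    Com m (X ∘ₗ Y) := by
  intro A p
  rw [LinearMap.comp_apply, LinearMap.comp_apply, hY, hX]

theorem com_add (m : ZMod h) (X Y : Module.End F (E F h)) (hX : Com m X) (hY : Com m Y) :
    Com m (X + Y) := by
  intro A p
  rw [LinearMap.add_apply, LinearMap.add_apply, hY, hX, map_add]

theorem com_sub (m : ZMod h) (X Y : Module.End F (E F h)) (hX : Com m X) (hY : Com m Y) :
    Com m (X - Y) := by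
  intro A p
  rw [LinearMap.sub_apply, LinearMap.sub_apply, hY, hX, map_sub]

theorem com_smul (m : ZMod h) (c : F) (X : Module.End F (E F h)) (hX : Com m X) :
    Com m (c • X) := by
  intro A p
  rw [LinearMap.smul_apply, LinearMap.smul_apply, hX, map_smul]

theorem com_sum {ι : Type} (s : Finset ι) (m : ZMod h) (X : ι → Module.End F (E F h))
    (hX : ∀ i, Com m (X i)) : Com m (∑ i ∈ s, X i) := by
  intro A p
  rw [LinearMap.sum_apply, LinearMap.sum_apply, map_sum]
  exact Finset.sum_congr rfl fun i _ => hX i A p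

/-- `phi_b` -/
noncomputable def PH (C : Fin 4 → Fin 4 → Module.End F (E F h)) (b : Fin 4) : Module.End F (E F h) :=
  ∑ i, (rho 1 (rep F (br i) 0)) ∘ₗ (C b i)

theorem PH_apply (C : Fin 4 → Fin 4 → Module.End F (E F h)) (b : Fin 4) (p : E F h) :
    PH C b p = ∑ i, rho 1 (rep F (br i) 0) (C b i p) := by
  unfold PH
  rw [LinearMap.sum_apply]
  rfl

/-- (g2) + (g3): the function identity for the tensors `phi_b`. -/
theorem slot_fun [CharP F 2] (Om : Set (Fin 4 → F)) (k : ZMod h)
    (C : Fin 4 → Fin 4 → Module.End F (E F h)) (C0 : Fin 4 → Module.End F (E F h))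
    (hCk : ∀ b i, Com k (C b i)) (hC0k : ∀ i, Com k (C0 i)) (hC1 : ∀ b i, Com 1 (C b i))
    (hsa : ∀ b i, SA (C b i))
    (hE5 : ∀ y ∈ Om, ∑ i, (y i) ^ (2 ^ (1 : ZMod h).val) •
      ((∑ b, rho k (jj (F := F) b) (C b i (hat y))) + C0 i (hat y)) = Qf y • hat y)
    (y : Fin 4 → F) (hy : y ∈ Om) (b : Fin 4) (p : E F h) :
    (Qf y) ^ (2 ^ k.val) * bf (PH C b p) (hat y) =
      ∑ c, ((y c) ^ (2 ^ k.val)) ^ 2 * ∑ b', jj (F := F) c b b' * bf (PH C b' p) (hat y) := by
  by_cases hy0 : y = 0
  · rw [hat_zero y hy0]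
    simp [bf]
  have hE := hE5 y hy
  have e1 : ∑ i, (y i) ^ (2 ^ (1 : ZMod h).val) •
      ((∑ b, rho k (jj (F := F) b) (C b i (hat y))) + C0 i (hat y)) =
      ∑ b, rho k (jj (F := F) b) (∑ i, (y i) ^ (2 ^ (1 : ZMod h).val) • C b i (hat y)) +
        ∑ i, (y i) ^ (2 ^ (1 : ZMod h).val) • C0 i (hat y) := by
    simp only [smul_add, Finset.sum_add_distrib, Finset.smul_sum, map_sum, map_smul]
    rw [Finset.sum_comm]
  rw [e1] at hE
  have hs := slot_vec k y (fun b => ∑ i, (y i) ^ (2 ^ (1 : ZMod h).val) • C b i (hat y))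
    (∑ i, (y i) ^ (2 ^ (1 : ZMod h).val) • C0 i (hat y))
    (fun b => fac_sum _ _ _ _ fun i => fac_smul _ _ _ _ (fac_op _ _ _ (hCk b i) _ (fac_hat _ _)))
    (fac_sum _ _ _ _ fun i => fac_smul _ _ _ _ (fac_op _ _ _ (hC0k i) _ (fac_hat _ _)))
    (Qf y) hE hy0 b
  obtain ⟨l, hl⟩ := exists_ne y hy0
  have e2 : ∀ b, bf (rho 1 (rep F l 0) p)
      (∑ i, (y i) ^ (2 ^ (1 : ZMod h).val) • C b i (hat y)) =
      (y (br l)) ^ (2 ^ (1 : ZMod h).val) * bf (PH C b p) (hat y) := by
    intro b
    rw [bf_sum_right, PH_apply, bf_sum_left, Finset.mul_sum]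
    refine Finset.sum_congr rfl fun i _ => ?_
    rw [bf_smul_right, ← hsa, hC1 b i, exch]
  have h3 := congrArg (fun v => bf (rho 1 (rep F l 0) p) v) hs
  simp only [bf_smul_right, bf_sum_right, e2] at h3
  have hl1 : (y (br l)) ^ (2 ^ (1 : ZMod h).val) ≠ 0 := pow_ne_zero _ hl
  apply mul_left_cancel₀ hl1
  rw [Finset.mul_sum]
  have e3 : (y (br l)) ^ (2 ^ (1 : ZMod h).val) *
      ((Qf y) ^ (2 ^ k.val) * bf (PH C b p) (hat y)) =
      (Qf y) ^ (2 ^ k.val) *
        ((y (br l)) ^ (2 ^ (1 : ZMod h).val) * bf (PH C b p) (hat y)) := by ring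
  rw [e3, h3]
  refine Finset.sum_congr rfl fun c _ => ?_
  rw [mul_left_comm]
  refine congrArg _ ?_
  rw [Finset.mul_sum]
  refine Finset.sum_congr rfl fun b' _ => ?_
  ring

/-- (g2), pairing form. -/
theorem slot_pair [CharP F 2] (k : ZMod h)
    (C : Fin 4 → Fin 4 → Module.End F (E F h)) (C0 : Fin 4 → Module.End F (E F h))
    (hCk : ∀ b i, Com k (C b i)) (hC0k : ∀ i, Com k (C0 i)) (hsa : ∀ b i, SA (C b i))
    (y : Fin 4 → F)
    (hE : ∑ i, (y i) ^ (2 ^ (1 : ZMod h).val) •
      ((∑ b, rho k (jj b) (C b i (hat y))) + C0 i (hat y)) = Qf y • hat y)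
    (b : Fin 4) (p : E F h) :
    (Qf y) ^ (2 ^ k.val) * ∑ i, (y i) ^ (2 ^ (1 : ZMod h).val) * bf (C b i p) (hat y) =
      ∑ c, ((y c) ^ (2 ^ k.val)) ^ 2 * ∑ b', jj c b b' *
        ∑ i, (y i) ^ (2 ^ (1 : ZMod h).val) * bf (C b' i p) (hat y) := by
  by_cases hy0 : y = 0
  · rw [hat_zero y hy0]
    simp [bf]
  have e1 : ∑ i, (y i) ^ (2 ^ (1 : ZMod h).val) •
      ((∑ b, rho k (jj b) (C b i (hat y))) + C0 i (hat y)) =
      ∑ b, rho k (jj b) (∑ i, (y i) ^ (2 ^ (1 : ZMod h).val) • C b i (hat y)) +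
        ∑ i, (y i) ^ (2 ^ (1 : ZMod h).val) • C0 i (hat y) := by
    simp only [smul_add, Finset.sum_add_distrib, Finset.smul_sum, map_sum, map_smul]
    rw [Finset.sum_comm]
  rw [e1] at hE
  have hs := slot_vec k y (fun b => ∑ i, (y i) ^ (2 ^ (1 : ZMod h).val) • C b i (hat y))
    (∑ i, (y i) ^ (2 ^ (1 : ZMod h).val) • C0 i (hat y))
    (fun b => fac_sum _ _ _ _ fun i => fac_smul _ _ _ _ (fac_op _ _ _ (hCk b i) _ (fac_hat _ _)))
    (fac_sum _ _ _ _ fun i => fac_smul _ _ _ _ (fac_op _ _ _ (hC0k i) _ (fac_hat _ _)))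
    (Qf y) hE hy0 b
  have e2 : ∀ b, bf p (∑ i, (y i) ^ (2 ^ (1 : ZMod h).val) • C b i (hat y)) =
      ∑ i, (y i) ^ (2 ^ (1 : ZMod h).val) * bf (C b i p) (hat y) := by
    intro b
    rw [bf_sum_right]
    refine Finset.sum_congr rfl fun i _ => ?_
    rw [bf_smul_right, ← hsa]
  have h3 := congrArg (fun v => bf p v) hs
  simp only [bf_smul_right, bf_sum_right, e2] at h3
  exact h3

/-- E18 (g4). -/
theorem E18 [CharP F 2] (Om : Set (Fin 4 → F)) (hsp : Submodule.span F ((hat (h := h)) '' Om) = ⊤)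
    (k : ZMod h) (hk0 : k ≠ 0)
    (hfr : ∀ x : F, (x ^ (2 ^ k.val)) ^ 2 = x ^ (2 ^ (k + 1).val))
    (C : Fin 4 → Fin 4 → Module.End F (E F h)) (C0 : Fin 4 → Module.End F (E F h))
    (hCk : ∀ b i, Com k (C b i)) (hC0k : ∀ i, Com k (C0 i)) (hC1 : ∀ b i, Com 1 (C b i))
    (hCk1 : ∀ b i, Com (k + 1) (C b i))
    (hsa : ∀ b i, SA (C b i))
    (hE5 : ∀ y ∈ Om, ∑ i, (y i) ^ (2 ^ (1 : ZMod h).val) •
      ((∑ b, rho k (jj (F := F) b) (C b i (hat y))) + C0 i (hat y)) = Qf y • hat y)
    (T : Fin 4 → Module.End F (E F h)) (hTsa : ∀ c, SA (T c)) (hT1 : ∀ c, Com (k + 1) (T c))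
    (hT : ∀ y ∈ Om, ∑ c, (y c) ^ (2 ^ (k + 1).val) • T c (hat y) =
      (Qf y) ^ (2 ^ k.val) • hat y) (b c : Fin 4) (p : E F h) :
    T c (PH C b p) = ∑ b', jj (F := F) c b b' • PH C b' p := by
  have hk1 : k + 1 ≠ 1 := fun hc => hk0 (by simpa using hc)
  have hPH : ∀ b, Com (k + 1) (PH C b) := by
    intro b
    unfold PH
    exact com_sum _ _ _ fun i => com_comp _ _ _ (com_rho _ _ hk1 _) (hCk1 b i)
  have hX := span_pair Om hsp (k + 1)
    (fun c => T c ∘ₗ PH C b - ∑ b', jj (F := F) c b b' • PH C b')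
    (fun c => com_sub _ _ _ (com_comp _ _ _ (hT1 c) (hPH b))
      (com_sum _ _ _ fun b' => com_smul _ _ _ (hPH b')))
    (by
      intro y hy p
      have h1 := slot_fun Om k C C0 hCk hC0k hC1 hsa hE5 y hy b p
      have h2 : (Qf y) ^ (2 ^ k.val) * bf (PH C b p) (hat y) =
          ∑ c, (y c) ^ (2 ^ (k + 1).val) * bf (T c (PH C b p)) (hat y) := by
        rw [← bf_smul_right, ← hT y hy, bf_sum_right]
        refine Finset.sum_congr rfl fun c _ => ?_
        rw [bf_smul_right, hTsa]
      rw [h2] at h1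
      have e1 : ∀ c, bf ((T c ∘ₗ PH C b - ∑ b', jj (F := F) c b b' • PH C b') p) (hat y) =
          bf (T c (PH C b p)) (hat y) - ∑ b', jj (F := F) c b b' * bf (PH C b' p) (hat y) := by
        intro c
        rw [LinearMap.sub_apply, LinearMap.comp_apply, LinearMap.sum_apply, sub_eq_add_neg,
          bf_add_left, ← neg_one_smul F (∑ b', (jj (F := F) c b b' • PH C b') p), bf_smul_left,
          bf_sum_left]
        simp only [LinearMap.smul_apply, bf_smul_left]
        ring
      simp only [e1, mul_sub, Finset.sum_sub_distrib]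
      rw [h1, sub_eq_zero]
      refine Finset.sum_congr rfl fun c _ => ?_
      rw [hfr])
  have := LinearMap.congr_fun (hX c) p
  rw [LinearMap.sub_apply, LinearMap.comp_apply, LinearMap.sum_apply, LinearMap.zero_apply,
    sub_eq_zero] at this
  simpa using this

/-- an operator that commutes with the digit `m` is zero as soon as its values vanish where the
digit is `0`. -/
theorem com_zero (m : ZMod h) (X : Module.End F (E F h)) (hX : Com m X)
    (h0 : ∀ p (w : ZMod h → Fin 4), w m = 0 → X p w = 0) : X = 0 := by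
  refine LinearMap.ext fun p => ?_
  funext w
  have h1 : ∀ (q : E F h) (w' : ZMod h → Fin 4) (r : Fin 4), w' m = 0 →
      rho m (rep F 0 r) q w' = q (Function.update w' m r) := by
    intro q w' r hw'
    rw [rho_apply, Finset.sum_eq_single r]
    · rw [rep_apply, if_pos ⟨hw', rfl⟩, one_mul]
    · intro l _ hl
      rw [rep_apply, if_neg (fun hc => hl hc.2), zero_mul]
    · simp
  have h2 := h0 (rho m (rep F 0 (w m)) p) (Function.update w m 0) (by simp)
  rw [hX, h1 _ _ _ (by simp)] at h2
  simpa using h2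

theorem rho_rep_apply (m : ZMod h) (A : Matrix (Fin 4) (Fin 4) F) (l : Fin 4) (p : E F h)
    (w : ZMod h → Fin 4) :
    rho m (A * rep F l 0) p w = A (w m) l * p (Function.update w m 0) := by
  rw [rho_apply, Finset.sum_eq_single 0]
  · rw [Matrix.mul_apply, Finset.sum_eq_single l]
    · rw [rep_apply, if_pos ⟨rfl, rfl⟩, mul_one]
    · intro b _ hb
      rw [rep_apply, if_neg (fun hc => hb hc.1), mul_zero]
    · simp
  · intro b _ hb
    rw [Matrix.mul_apply, Finset.sum_eq_zero, zero_mul]
    intro x _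
    rw [rep_apply, if_neg (fun hc => hb hc.2), mul_zero]
  · simp

theorem jm_rev (a i j : Fin 4) : jj (F := F) a (br i) (br j) = jj (F := F) a j i := by
  fin_cases a <;> fin_cases i <;> fin_cases j <;> rfl

/-- (L). -/
theorem relL [CharP F 2] (k : ZMod h)
    (C : Fin 4 → Fin 4 → Module.End F (E F h))
    (hC1 : ∀ b i, Com 1 (C b i))
    (G : Fin 4 → Fin 4 → Module.End F (E F h)) (G0 : Fin 4 → Module.End F (E F h))
    (hG1 : ∀ a c, Com 1 (G a c)) (hG01 : ∀ c, Com 1 (G0 c))
    (T : Fin 4 → Module.End F (E F h))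
    (hT : ∀ c p, T c p = (∑ a, rho 1 (jj (F := F) a) (G a c p)) + G0 c p)
    (hL : ∀ b c p, T c (PH C b p) = ∑ b', jj (F := F) c b b' • PH C b' p) (b c i' : Fin 4) :
    (∑ a, ∑ i, jj (F := F) a i i' • (G a c ∘ₗ C b i)) + G0 c ∘ₗ C b i' = ∑ b', jj (F := F) c b b' • C b' i' := by
  rw [← sub_eq_zero]
  apply com_zero (1 : ZMod h)
  · exact com_sub _ _ _ (com_add _ _ _ (com_sum _ _ _ fun a => com_sum _ _ _ fun i =>
      com_smul _ _ _ (com_comp _ _ _ (hG1 a c) (hC1 b i))) (com_comp _ _ _ (hG01 c) (hC1 b i')))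
      (com_sum _ _ _ fun b' => com_smul _ _ _ (hC1 b' i'))
  · intro p w hw
    have h1 := congrFun (hL b c p) (Function.update w 1 (br i'))
    rw [hT] at h1
    -- left side
    have e1 : ∀ a, rho 1 (jj (F := F) a) (G a c (PH C b p)) (Function.update w 1 (br i')) =
        ∑ i, jj (F := F) a i i' * (G a c (C b i p)) w := by
      intro a
      rw [PH_apply, map_sum, map_sum, Finset.sum_apply]
      refine Finset.sum_congr rfl fun i _ => ?_
      rw [hG1, ← rho_mul, rho_rep_apply, Function.update_self, Function.update_idem, jm_rev]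
      congr 1
      rw [← hw, Function.update_eq_self]
    have e2 : G0 c (PH C b p) (Function.update w 1 (br i')) = (G0 c (C b i' p)) w := by
      rw [PH_apply, map_sum, Finset.sum_apply, Finset.sum_eq_single i']
      · rw [hG01]
        have := rho_rep_apply (1 : ZMod h) (1 : Matrix (Fin 4) (Fin 4) F) (br i')
          (G0 c (C b i' p)) (Function.update w 1 (br i'))
        rw [one_mul] at this
        rw [this, Function.update_self, Matrix.one_apply_eq, one_mul, Function.update_idem, ← hw,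
          Function.update_eq_self]
      · intro i _ hi
        rw [hG01]
        have := rho_rep_apply (1 : ZMod h) (1 : Matrix (Fin 4) (Fin 4) F) (br i)
          (G0 c (C b i p)) (Function.update w 1 (br i'))
        rw [one_mul] at this
        rw [this, Function.update_self, Matrix.one_apply_ne, zero_mul]
        exact fun hc => hi (br_inj hc.symm)
      · simp
    have e3 : ∀ b', PH C b' p (Function.update w 1 (br i')) = (C b' i' p) w := by
      intro b'
      rw [PH_apply, Finset.sum_apply, Finset.sum_eq_single i']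
      · have := rho_rep_apply (1 : ZMod h) (1 : Matrix (Fin 4) (Fin 4) F) (br i')
          (C b' i' p) (Function.update w 1 (br i'))
        rw [one_mul] at this
        rw [this, Function.update_self, Matrix.one_apply_eq, one_mul, Function.update_idem, ← hw,
          Function.update_eq_self]
      · intro i _ hi
        have := rho_rep_apply (1 : ZMod h) (1 : Matrix (Fin 4) (Fin 4) F) (br i)
          (C b' i p) (Function.update w 1 (br i'))
        rw [one_mul] at this
        rw [this, Function.update_self, Matrix.one_apply_ne, zero_mul]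
        exact fun hc => hi (br_inj hc.symm)
      · simp
    rw [Pi.add_apply, Finset.sum_apply, Finset.sum_congr rfl fun a _ => e1 a, e2,
      Finset.sum_apply] at h1
    simp only [Pi.smul_apply, e3, smul_eq_mul] at h1
    simp only [LinearMap.sub_apply, LinearMap.add_apply, LinearMap.sum_apply,
      LinearMap.smul_apply, LinearMap.comp_apply, Pi.sub_apply, Pi.add_apply, Finset.sum_apply,
      Pi.smul_apply, smul_eq_mul]
    rw [h1, sub_self]


end Pool.OVE53
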