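import Mathlib
import Pool.Agent.H41.OVO.Stmt
import Pool.Agent.H53.OVO.L41

set_option autoImplicit false
set_option linter.unusedSectionVars false

/-! rows G2 and L of board ove: `GStmt`, `LStmt`. -/

namespace Pool.OVE53

open Finset Pool.OVE

theorem gam_eq {F : Type} [Field F] (y : Fin 4 → F) (b b' : Fin 4) :
    gam y b b' = ∑ c, y c * jj c b b' := by
  rw [Fin.sum_univ_four, jj0, jj1, jj2, jj3]
  fin_cases b <;> fin_cases b' <;> simp [gam]

theorem gam_single {F : Type} [Field F] (c b b' : Fin 4) :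
    gam (Pi.single c 1 : Fin 4 → F) b b' = jj c b b' := by
  rw [gam_eq, Finset.sum_eq_single c]
  · simp
  · intro x _ hx
    rw [Pi.single_eq_of_ne hx, zero_mul]
  · simp

variable {F : Type} [Field F] [Fintype F] [CharP F 2] {h : ℕ} [NeZero h]

theorem two_pow_one (h3 : 3 ≤ h) : 2 ^ (1 : ZMod h).val = 2 := by
  haveI : Fact (1 < h) := ⟨by omega⟩
  rw [ZMod.val_one, pow_one]

theorem fr_succ (hq : Fintype.card F = 2 ^ h) (h3 : 3 ≤ h) (k : ZMod h) (x : F) :
    (x ^ (2 ^ k.val)) ^ 2 = x ^ (2 ^ (k + 1).val) := by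
  haveI : Fact (1 < h) := ⟨by omega⟩
  rw [← pow_mul, ← pow_succ, ZMod.val_add, ZMod.val_one]
  have hk := ZMod.val_lt k
  by_cases hk1 : k.val + 1 < h
  · rw [Nat.mod_eq_of_lt hk1]
  · have : k.val + 1 = h := by omega
    rw [this, Nat.mod_self, ← hq, FiniteField.pow_card, pow_zero, pow_one]

/-- facts on the components which the slot lemma needs -/
structure CoF (k : ZMod h) (Θ : Fin 4 → Module.End F (E F h)) : Prop where
  com : ∀ b i, Com k (co k b (Θ i))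
  sa : ∀ b i, SA (co k b (Θ i))

theorem slot_split (k : ZMod h) (Θ : Fin 4 → Module.End F (E F h)) (i : Fin 4)
    (hs : Θ i = ∑ b : Fin 5, rho k (J b) * co k b (Θ i)) (p : E F h) :
    Θ i p = (∑ b, rho k (jj b) (Cc k Θ b i p)) + co k 0 (Θ i) p := by
  conv_lhs => rw [hs]
  rw [LinearMap.sum_apply, Fin.sum_univ_succ, add_comm]
  congr 1
  have : (J (F := F) 0) = 1 := rfl
  rw [this, map_one, one_mul]

theorem g2_of (Om : Finset (Fin 4 → F)) (Θ : Fin 4 → Module.End F (E F h)) (hB : Base Om Θ)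
    (k : ZMod h) (hk0 : k ≠ 0) (hk1 : k ≠ 1) (hco : CoF k Θ)
    (y : Fin 4 → F) (hy : y ∈ Om) (ξ : E F h) (b : Fin 4) :
      Qf y ^ (2 ^ k.val) * ∑ i, y i ^ 2 * bf (Cc k Θ b i ξ) (hat y) =
        ∑ b', gam (fun i => y i ^ (2 ^ (k.val + 1))) b b' *
          ∑ i, y i ^ 2 * bf (Cc k Θ b' i ξ) (hat y) := by
  have h1 := slot_pair k (Cc k Θ) (fun i => co k 0 (Θ i)) (fun b i => hco.com b.succ i)
    (fun i => hco.com 0 i) (fun b i => hco.sa b.succ i) y
    (by
      rw [two_pow_one hB.h3, ← hB.e5 y hy]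
      refine Finset.sum_congr rfl fun i _ => ?_
      rw [slot_split k Θ i (hB.slot k hk0 hk1 i)]) b ξ
  rw [two_pow_one hB.h3] at h1
  rw [h1]
  have e1 : ∀ c, ((y c) ^ (2 ^ k.val)) ^ 2 = y c ^ (2 ^ (k.val + 1)) := by
    intro c
    rw [← pow_mul, ← pow_succ]
  simp only [e1, Finset.mul_sum, gam_eq, Finset.sum_mul]
  rw [Finset.sum_comm]
  refine Finset.sum_congr rfl fun b' _ => ?_
  rw [Finset.sum_comm]
  refine Finset.sum_congr rfl fun i _ => Finset.sum_congr rfl fun c _ => ?_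
  ring

theorem l_of (Om : Finset (Fin 4 → F)) (Θ : Fin 4 → Module.End F (E F h)) (hB : Base Om Θ)
    (k : ZMod h) (hk0 : k ≠ 0) (hk1 : k ≠ 1) (hco : CoF k Θ)
    (hC1 : ∀ b i, Com 1 (Cc k Θ b i)) (hCk1 : ∀ b i, Com (k + 1) (Cc k Θ b i))
    (hTsa : ∀ c, SA (tw k.val Θ c)) (hT1 : ∀ c, Com (k + 1) (tw k.val Θ c))
    (hT : ∀ y ∈ Om, ∑ c, (y c) ^ (2 ^ (k + 1).val) • tw k.val Θ c (hat y) =
      (Qf y) ^ (2 ^ k.val) • hat y)
    (hG : ∀ a c, Com 1 (Gc k Θ a c))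
    (hGs : ∀ c, tw k.val Θ c = ∑ a : Fin 5, rho 1 (J a) * Gc k Θ a c) (b c i : Fin 4) :
      ∑ a : Fin 5, ∑ l : Fin 4, (J a : Matrix (Fin 4) (Fin 4) F) l i • (Gc k Θ a c * Cc k Θ b l) =
        ∑ b', gam (Pi.single c 1 : Fin 4 → F) b b' • Cc k Θ b' i := by
  have h1 := E18 (Om : Set (Fin 4 → F)) hB.span k hk0 (fr_succ hB.hq hB.h3 k) (Cc k Θ)
    (fun i => co k 0 (Θ i)) (fun b i => hco.com b.succ i)
    (fun i => hco.com 0 i) hC1 hCk1 (fun b i => hco.sa b.succ i)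
    (by
      intro y hy
      rw [two_pow_one hB.h3, ← hB.e5 y hy]
      refine Finset.sum_congr rfl fun i _ => ?_
      rw [slot_split k Θ i (hB.slot k hk0 hk1 i)])
    (tw k.val Θ) hTsa hT1 hT
  have h2 := relL k (Cc k Θ) hC1 (fun a c => Gc k Θ a.succ c) (fun c => Gc k Θ 0 c)
    (fun a c => hG a.succ c) (fun c => hG 0 c) (tw k.val Θ)
    (by
      intro c p
      conv_lhs => rw [hGs c]
      rw [LinearMap.sum_apply, Fin.sum_univ_succ, add_comm]
      congr 1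
      have : (J (F := F) 0) = 1 := rfl
      rw [this, map_one, one_mul])
    (fun b c p => h1 b c p) b c i
  simp only [gam_single]
  rw [← h2, Fin.sum_univ_succ, add_comm]
  congr 1
  rw [Finset.sum_eq_single i]
  · have : (J (F := F) 0) = 1 := rfl
    rw [this, Matrix.one_apply_eq, one_smul]
    rfl
  · intro l _ hl
    have : (J (F := F) 0) = 1 := rfl
    rw [this, Matrix.one_apply_ne hl, zero_smul]
  · simp

end Pool.OVE53
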