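import Mathlib
import Pool.Agent.H41.OVO.Tw
import Pool.Agent.H53.OVO.GL

set_option autoImplicit false
set_option linter.unusedSectionVars false

/-! rows G2 and L of board ove, literal. -/

namespace Pool.OVE53

open Finset hiding ext
open Pool.OVE Pool.OVE41

variable {F : Type} [Field F] [Fintype F] [CharP F 2] {h : ℕ} [NeZero h]

theorem cof {Om : Finset (Fin 4 → F)} {Θ : Fin 4 → Module.End F (E F h)} (hB : Base Om Θ)
    {k : ZMod h} (hk0 : k ≠ 0) (hk1 : k ≠ 1) : CoF k Θ where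
  com b i := fun A φ => co_comm_apply k b (Θ i) A φ
  sa b i := fun φ ψ => Pool.OVE41.co_sa k b (Θ i) (hB.sa i) (hB.slot k hk0 hk1 i) φ ψ

/-- row G2 -/
theorem t_g2 : GStmt := by
  intro F _ _ _ h _ Om Θ hB k hk0 hk1 y hy ξ b
  exact g2_of Om Θ hB k hk0 hk1 (cof hB hk0 hk1) y hy ξ b

/-- row L -/
theorem t_l : LStmt := by
  intro F _ _ _ h _ Om Θ hB k hk0 hk1 hT b c i
  have hkk : k ≠ k + 1 := by
    intro hc
    have h3 := hB.h3
    haveI : Fact (1 < h) := ⟨by omega⟩
    have h10 : (1 : ZMod h) = 0 := by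
      have := congrArg (fun x => x - k) hc
      simpa using this.symm
    exact one_ne_zero h10
  have hk01 : Trv Θ (k + 1) := hT
  refine l_of Om Θ hB k hk0 hk1 (cof hB hk0 hk1) (fun b i A φ => Cc_rho hk1 hB.t1 b i A φ)
    (fun b i A φ => Cc_rho hkk hT b i A φ) (fun c φ ψ => tw_sa hB.sa k.val c φ ψ) ?_ ?_
    (fun a c A φ => Gc_rho_one k a c A φ) (fun c => tw_slot_one hB hk0 hk1 c) b c i
  · intro c A φ
    have := tw_trv hB.t1 k.val
    rw [ZMod.natCast_zmod_val, add_comm] at this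
    exact this c A φ
  · intro y hy
    rw [← tw_e5 hB k.val hy]
    refine Finset.sum_congr rfl fun c _ => ?_
    rw [pow_val_add_one hB.hq]

end Pool.OVE53
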