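import Mathlib

set_option autoImplicit false

/-! Temporary base of helper53 for the module E18 (one space `E`). -/

namespace Pool.OVO53

open Finset

variable {F : Type} [Field F] {h : ℕ} [NeZero h]

/-- coefficients of full words -/
abbrev E (F : Type) (h : ℕ) := (ZMod h → Fin 4) → F

/-- the pairing -/
def frm (p q : E F h) : F := ∑ w : ZMod h → Fin 4, p w * q (fun i => Fin.rev (w i))

/-- `y^` -/
def hat (h : ℕ) [NeZero h] (y : Fin 4 → F) : E F h := fun w => ∏ i : ZMod h, (y (w i)) ^ (2 ^ i.val)

/-- operator at the digit `m` -/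
def rho (m : ZMod h) (A : Matrix (Fin 4) (Fin 4) F) : E F h →ₗ[F] E F h where
  toFun p := fun w => ∑ l, A (w m) l * p (Function.update w m l)
  map_add' p q := by
    funext w
    simp [mul_add, Finset.sum_add_distrib]
  map_smul' c p := by
    funext w
    simp only [Pi.smul_apply, smul_eq_mul, RingHom.id_apply, Finset.mul_sum]
    exact Finset.sum_congr rfl fun l _ => by ring

theorem rho_apply (m : ZMod h) (A : Matrix (Fin 4) (Fin 4) F) (p : E F h) (w : ZMod h → Fin 4) :
    rho m A p w = ∑ l, A (w m) l * p (Function.update w m l) := rfl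

theorem rho_one (m : ZMod h) : rho m (1 : Matrix (Fin 4) (Fin 4) F) = LinearMap.id := by
  refine LinearMap.ext fun p => ?_
  funext w
  rw [rho_apply, Finset.sum_eq_single (w m)]
  · simp
  · intro b _ hb
    rw [Matrix.one_apply_ne (Ne.symm hb), zero_mul]
  · simp

theorem rho_mul (m : ZMod h) (A B : Matrix (Fin 4) (Fin 4) F) (p : E F h) :
    rho m (A * B) p = rho m A (rho m B p) := by
  funext w
  simp only [rho_apply, Matrix.mul_apply, Finset.sum_mul, Finset.mul_sum, Function.update_self,
    Function.update_idem]
  rw [Finset.sum_comm]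
  exact Finset.sum_congr rfl fun l _ => Finset.sum_congr rfl fun l' _ => by ring

theorem rho_add (m : ZMod h) (A B : Matrix (Fin 4) (Fin 4) F) (p : E F h) :
    rho m (A + B) p = rho m A p + rho m B p := by
  funext w
  simp [rho_apply, add_mul, Finset.sum_add_distrib]

theorem rho_smul (m : ZMod h) (c : F) (A : Matrix (Fin 4) (Fin 4) F) (p : E F h) :
    rho m (c • A) p = c • rho m A p := by
  funext w
  simp only [rho_apply, Matrix.smul_apply, smul_eq_mul, Pi.smul_apply, Finset.mul_sum]
  exact Finset.sum_congr rfl fun l _ => by ring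

theorem rho_sum {ι : Type} (s : Finset ι) (m : ZMod h) (A : ι → Matrix (Fin 4) (Fin 4) F)
    (p : E F h) : rho m (∑ i ∈ s, A i) p = ∑ i ∈ s, rho m (A i) p := by
  classical
  induction s using Finset.induction_on with
  | empty =>
    funext w
    simp [rho_apply]
  | insert a s ha ih => rw [Finset.sum_insert ha, Finset.sum_insert ha, rho_add, ih]

/-- commutes with the digit `m` -/
def Com (m : ZMod h) (X : E F h →ₗ[F] E F h) : Prop :=
  ∀ (A : Matrix (Fin 4) (Fin 4) F) (p : E F h), X (rho m A p) = rho m A (X p)

end Pool.OVO53
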