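import Pool.Agent.H53.OVO.Ex

set_option autoImplicit false
set_option linter.unusedSectionVars false

/-! E18 and (L) on the one space `E`. -/

namespace Pool.OVO53

open Finset

variable {F : Type} [Field F] {h : ℕ} [NeZero h]

/-- self-adjoint operator -/
def SA (X : E F h →ₗ[F] E F h) : Prop := ∀ p q, frm (X p) q = frm p (X q)

theorem com_rho (m k : ZMod h) (hmk : m ≠ k) (A : Matrix (Fin 4) (Fin 4) F) :
    Com m (rho k A) := by
  intro B p
  funext w
  simp only [rho_apply, Finset.mul_sum, Function.update_of_ne hmk, Function.update_of_ne hmk.symm]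
  rw [Finset.sum_comm]
  refine Finset.sum_congr rfl fun l _ => Finset.sum_congr rfl fun l' _ => ?_
  rw [Function.update_comm hmk]
  ring

theorem com_comp (m : ZMod h) (X Y : E F h →ₗ[F] E F h) (hX : Com m X) (hY : Com m Y) :
    Com m (X ∘ₗ Y) := by
  intro A p
  rw [LinearMap.comp_apply, LinearMap.comp_apply, hY, hX]

theorem com_add (m : ZMod h) (X Y : E F h →ₗ[F] E F h) (hX : Com m X) (hY : Com m Y) :
    Com m (X + Y) := by
  intro A p
  rw [LinearMap.add_apply, LinearMap.add_apply, hY, hX, map_add]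

theorem com_sub (m : ZMod h) (X Y : E F h →ₗ[F] E F h) (hX : Com m X) (hY : Com m Y) :
    Com m (X - Y) := by
  intro A p
  rw [LinearMap.sub_apply, LinearMap.sub_apply, hY, hX, map_sub]

theorem com_smul (m : ZMod h) (c : F) (X : E F h →ₗ[F] E F h) (hX : Com m X) :
    Com m (c • X) := by
  intro A p
  rw [LinearMap.smul_apply, LinearMap.smul_apply, hX, map_smul]

theorem com_sum {ι : Type} (s : Finset ι) (m : ZMod h) (X : ι → (E F h →ₗ[F] E F h))
    (hX : ∀ i, Com m (X i)) : Com m (∑ i ∈ s, X i) := by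
  intro A p
  rw [LinearMap.sum_apply, LinearMap.sum_apply, map_sum]
  exact Finset.sum_congr rfl fun i _ => hX i A p

/-- `phi_b` -/
noncomputable def PH (C : Fin 4 → Fin 4 → (E F h →ₗ[F] E F h)) (b : Fin 4) : E F h →ₗ[F] E F h :=
  ∑ i, (rho 1 (rep F (Fin.rev i) 0)) ∘ₗ (C b i)

theorem PH_apply (C : Fin 4 → Fin 4 → (E F h →ₗ[F] E F h)) (b : Fin 4) (p : E F h) :
    PH C b p = ∑ i, rho 1 (rep F (Fin.rev i) 0) (C b i p) := by
  unfold PH
  rw [LinearMap.sum_apply]
  rfl

/-- (g2) + (g3): the function identity for the tensors `phi_b`. -/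
theorem slot_fun [CharP F 2] (Om : Set (Fin 4 → F)) (k : ZMod h)
    (C : Fin 4 → Fin 4 → (E F h →ₗ[F] E F h)) (C0 : Fin 4 → (E F h →ₗ[F] E F h))
    (hCk : ∀ b i, Com k (C b i)) (hC0k : ∀ i, Com k (C0 i)) (hC1 : ∀ b i, Com 1 (C b i))
    (hsa : ∀ b i, SA (C b i))
    (hE5 : ∀ y ∈ Om, ∑ i, (y i) ^ (2 ^ (1 : ZMod h).val) •
      ((∑ b, rho k (jm F b) (C b i (hat h y))) + C0 i (hat h y)) = Qf y • hat h y)
    (y : Fin 4 → F) (hy : y ∈ Om) (b : Fin 4) (p : E F h) :
    (Qf y) ^ (2 ^ k.val) * frm (PH C b p) (hat h y) =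
      ∑ c, ((y c) ^ (2 ^ k.val)) ^ 2 * ∑ b', jm F c b b' * frm (PH C b' p) (hat h y) := by
  by_cases hy0 : y = 0
  · rw [hat_zero y hy0]
    simp [frm]
  have hE := hE5 y hy
  have e1 : ∑ i, (y i) ^ (2 ^ (1 : ZMod h).val) •
      ((∑ b, rho k (jm F b) (C b i (hat h y))) + C0 i (hat h y)) =
      ∑ b, rho k (jm F b) (∑ i, (y i) ^ (2 ^ (1 : ZMod h).val) • C b i (hat h y)) +
        ∑ i, (y i) ^ (2 ^ (1 : ZMod h).val) • C0 i (hat h y) := by
    simp only [smul_add, Finset.sum_add_distrib, Finset.smul_sum, map_sum, map_smul]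
    rw [Finset.sum_comm]
  rw [e1] at hE
  have hs := slot_vec k y (fun b => ∑ i, (y i) ^ (2 ^ (1 : ZMod h).val) • C b i (hat h y))
    (∑ i, (y i) ^ (2 ^ (1 : ZMod h).val) • C0 i (hat h y))
    (fun b => fac_sum _ _ _ _ fun i => fac_smul _ _ _ _ (fac_op _ _ _ (hCk b i) _ (fac_hat _ _)))
    (fac_sum _ _ _ _ fun i => fac_smul _ _ _ _ (fac_op _ _ _ (hC0k i) _ (fac_hat _ _)))
    (Qf y) hE hy0 b
  obtain ⟨l, hl⟩ := exists_ne y hy0
  have e2 : ∀ b, frm (rho 1 (rep F l 0) p)
      (∑ i, (y i) ^ (2 ^ (1 : ZMod h).val) • C b i (hat h y)) =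
      (y (Fin.rev l)) ^ (2 ^ (1 : ZMod h).val) * frm (PH C b p) (hat h y) := by
    intro b
    rw [frm_sum_right, PH_apply, frm_sum_left, Finset.mul_sum]
    refine Finset.sum_congr rfl fun i _ => ?_
    rw [frm_smul_right, ← hsa, hC1 b i, exch]
  have h3 := congrArg (fun v => frm (rho 1 (rep F l 0) p) v) hs
  simp only [frm_smul_right, frm_sum_right, e2] at h3
  have hl1 : (y (Fin.rev l)) ^ (2 ^ (1 : ZMod h).val) ≠ 0 := pow_ne_zero _ hl
  apply mul_left_cancel₀ hl1
  rw [Finset.mul_sum]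
  have e3 : (y (Fin.rev l)) ^ (2 ^ (1 : ZMod h).val) *
      ((Qf y) ^ (2 ^ k.val) * frm (PH C b p) (hat h y)) =
      (Qf y) ^ (2 ^ k.val) *
        ((y (Fin.rev l)) ^ (2 ^ (1 : ZMod h).val) * frm (PH C b p) (hat h y)) := by ring
  rw [e3, h3]
  refine Finset.sum_congr rfl fun c _ => ?_
  rw [mul_left_comm]
  refine congrArg _ ?_
  rw [Finset.mul_sum]
  refine Finset.sum_congr rfl fun b' _ => ?_
  ring

/-- E18 (g4). -/
theorem E18 [CharP F 2] (Om : Set (Fin 4 → F)) (hsp : Submodule.span F (hat h '' Om) = ⊤)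
    (k : ZMod h) (hk0 : k ≠ 0)
    (hfr : ∀ x : F, (x ^ (2 ^ k.val)) ^ 2 = x ^ (2 ^ (k + 1).val))
    (C : Fin 4 → Fin 4 → (E F h →ₗ[F] E F h)) (C0 : Fin 4 → (E F h →ₗ[F] E F h))
    (hCk : ∀ b i, Com k (C b i)) (hC0k : ∀ i, Com k (C0 i)) (hC1 : ∀ b i, Com 1 (C b i))
    (hCk1 : ∀ b i, Com (k + 1) (C b i))
    (hsa : ∀ b i, SA (C b i))
    (hE5 : ∀ y ∈ Om, ∑ i, (y i) ^ (2 ^ (1 : ZMod h).val) •
      ((∑ b, rho k (jm F b) (C b i (hat h y))) + C0 i (hat h y)) = Qf y • hat h y)
    (T : Fin 4 → (E F h →ₗ[F] E F h)) (hTsa : ∀ c, SA (T c)) (hT1 : ∀ c, Com (k + 1) (T c))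
    (hT : ∀ y ∈ Om, ∑ c, (y c) ^ (2 ^ (k + 1).val) • T c (hat h y) =
      (Qf y) ^ (2 ^ k.val) • hat h y) (b c : Fin 4) (p : E F h) :
    T c (PH C b p) = ∑ b', jm F c b b' • PH C b' p := by
  have hk1 : k + 1 ≠ 1 := fun hc => hk0 (by simpa using hc)
  have hPH : ∀ b, Com (k + 1) (PH C b) := by
    intro b
    unfold PH
    exact com_sum _ _ _ fun i => com_comp _ _ _ (com_rho _ _ hk1 _) (hCk1 b i)
  have hX := span_pair Om hsp (k + 1)
    (fun c => T c ∘ₗ PH C b - ∑ b', jm F c b b' • PH C b')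
    (fun c => com_sub _ _ _ (com_comp _ _ _ (hT1 c) (hPH b))
      (com_sum _ _ _ fun b' => com_smul _ _ _ (hPH b')))
    (by
      intro y hy p
      have h1 := slot_fun Om k C C0 hCk hC0k hC1 hsa hE5 y hy b p
      have h2 : (Qf y) ^ (2 ^ k.val) * frm (PH C b p) (hat h y) =
          ∑ c, (y c) ^ (2 ^ (k + 1).val) * frm (T c (PH C b p)) (hat h y) := by
        rw [← frm_smul_right, ← hT y hy, frm_sum_right]
        refine Finset.sum_congr rfl fun c _ => ?_
        rw [frm_smul_right, hTsa]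
      rw [h2] at h1
      have e1 : ∀ c, frm ((T c ∘ₗ PH C b - ∑ b', jm F c b b' • PH C b') p) (hat h y) =
          frm (T c (PH C b p)) (hat h y) - ∑ b', jm F c b b' * frm (PH C b' p) (hat h y) := by
        intro c
        rw [LinearMap.sub_apply, LinearMap.comp_apply, LinearMap.sum_apply, sub_eq_add_neg,
          frm_add_left, ← neg_one_smul F (∑ b', (jm F c b b' • PH C b') p), frm_smul_left,
          frm_sum_left]
        simp only [LinearMap.smul_apply, frm_smul_left]
        ring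
      simp only [e1, mul_sub, Finset.sum_sub_distrib]
      rw [h1, sub_eq_zero]
      refine Finset.sum_congr rfl fun c _ => ?_
      rw [hfr])
  have := LinearMap.congr_fun (hX c) p
  rw [LinearMap.sub_apply, LinearMap.comp_apply, LinearMap.sum_apply, LinearMap.zero_apply,
    sub_eq_zero] at this
  simpa using this

/-- an operator that commutes with the digit `m` is zero as soon as its values vanish where the
digit is `0`. -/
theorem com_zero (m : ZMod h) (X : E F h →ₗ[F] E F h) (hX : Com m X)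
    (h0 : ∀ p (w : ZMod h → Fin 4), w m = 0 → X p w = 0) : X = 0 := by
  refine LinearMap.ext fun p => ?_
  funext w
  have h1 : ∀ (q : E F h) (w' : ZMod h → Fin 4) (r : Fin 4), w' m = 0 →
      rho m (rep F 0 r) q w' = q (Function.update w' m r) := by
    intro q w' r hw'
    rw [rho_apply, Finset.sum_eq_single r]
    · rw [rep_apply, if_pos ⟨hw', rfl⟩, one_mul]
    · intro l _ hl
      rw [rep_apply, if_neg (fun hc => hl hc.2), zero_mul]
    · simp
  have h2 := h0 (rho m (rep F 0 (w m)) p) (Function.update w m 0) (by simp)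
  rw [hX, h1 _ _ _ (by simp)] at h2
  simpa using h2

theorem rho_rep_apply (m : ZMod h) (A : Matrix (Fin 4) (Fin 4) F) (l : Fin 4) (p : E F h)
    (w : ZMod h → Fin 4) :
    rho m (A * rep F l 0) p w = A (w m) l * p (Function.update w m 0) := by
  rw [rho_apply, Finset.sum_eq_single 0]
  · rw [Matrix.mul_apply, Finset.sum_eq_single l]
    · rw [rep_apply, if_pos ⟨rfl, rfl⟩, mul_one]
    · intro b _ hb
      rw [rep_apply, if_neg (fun hc => hb hc.1), mul_zero]
    · simp
  · intro b _ hb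
    rw [Matrix.mul_apply, Finset.sum_eq_zero, zero_mul]
    intro x _
    rw [rep_apply, if_neg (fun hc => hb hc.2), mul_zero]
  · simp

theorem jm_rev (a i j : Fin 4) : jm F a (Fin.rev i) (Fin.rev j) = jm F a j i := by
  fin_cases a <;> fin_cases i <;> fin_cases j <;> rfl

/-- (L). -/
theorem relL [CharP F 2] (k : ZMod h)
    (C : Fin 4 → Fin 4 → (E F h →ₗ[F] E F h))
    (hC1 : ∀ b i, Com 1 (C b i))
    (G : Fin 4 → Fin 4 → (E F h →ₗ[F] E F h)) (G0 : Fin 4 → (E F h →ₗ[F] E F h))
    (hG1 : ∀ a c, Com 1 (G a c)) (hG01 : ∀ c, Com 1 (G0 c))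
    (T : Fin 4 → (E F h →ₗ[F] E F h))
    (hT : ∀ c p, T c p = (∑ a, rho 1 (jm F a) (G a c p)) + G0 c p)
    (hL : ∀ b c p, T c (PH C b p) = ∑ b', jm F c b b' • PH C b' p) (b c i' : Fin 4) :
    (∑ a, ∑ i, jm F a i i' • (G a c ∘ₗ C b i)) + G0 c ∘ₗ C b i' = ∑ b', jm F c b b' • C b' i' := by
  rw [← sub_eq_zero]
  apply com_zero (1 : ZMod h)
  · exact com_sub _ _ _ (com_add _ _ _ (com_sum _ _ _ fun a => com_sum _ _ _ fun i =>
      com_smul _ _ _ (com_comp _ _ _ (hG1 a c) (hC1 b i))) (com_comp _ _ _ (hG01 c) (hC1 b i')))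
      (com_sum _ _ _ fun b' => com_smul _ _ _ (hC1 b' i'))
  · intro p w hw
    have h1 := congrFun (hL b c p) (Function.update w 1 (Fin.rev i'))
    rw [hT] at h1
    -- left side
    have e1 : ∀ a, rho 1 (jm F a) (G a c (PH C b p)) (Function.update w 1 (Fin.rev i')) =
        ∑ i, jm F a i i' * (G a c (C b i p)) w := by
      intro a
      rw [PH_apply, map_sum, map_sum, Finset.sum_apply]
      refine Finset.sum_congr rfl fun i _ => ?_
      rw [hG1, ← rho_mul, rho_rep_apply, Function.update_self, Function.update_idem, jm_rev]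
      congr 1
      rw [← hw, Function.update_eq_self]
    have e2 : G0 c (PH C b p) (Function.update w 1 (Fin.rev i')) = (G0 c (C b i' p)) w := by
      rw [PH_apply, map_sum, Finset.sum_apply, Finset.sum_eq_single i']
      · rw [hG01]
        have := rho_rep_apply (1 : ZMod h) (1 : Matrix (Fin 4) (Fin 4) F) (Fin.rev i')
          (G0 c (C b i' p)) (Function.update w 1 (Fin.rev i'))
        rw [one_mul] at this
        rw [this, Function.update_self, Matrix.one_apply_eq, one_mul, Function.update_idem, ← hw,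
          Function.update_eq_self]
      · intro i _ hi
        rw [hG01]
        have := rho_rep_apply (1 : ZMod h) (1 : Matrix (Fin 4) (Fin 4) F) (Fin.rev i)
          (G0 c (C b i p)) (Function.update w 1 (Fin.rev i'))
        rw [one_mul] at this
        rw [this, Function.update_self, Matrix.one_apply_ne, zero_mul]
        exact fun hc => hi (Fin.rev_injective hc.symm)
      · simp
    have e3 : ∀ b', PH C b' p (Function.update w 1 (Fin.rev i')) = (C b' i' p) w := by
      intro b'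
      rw [PH_apply, Finset.sum_apply, Finset.sum_eq_single i']
      · have := rho_rep_apply (1 : ZMod h) (1 : Matrix (Fin 4) (Fin 4) F) (Fin.rev i')
          (C b' i' p) (Function.update w 1 (Fin.rev i'))
        rw [one_mul] at this
        rw [this, Function.update_self, Matrix.one_apply_eq, one_mul, Function.update_idem, ← hw,
          Function.update_eq_self]
      · intro i _ hi
        have := rho_rep_apply (1 : ZMod h) (1 : Matrix (Fin 4) (Fin 4) F) (Fin.rev i)
          (C b' i p) (Function.update w 1 (Fin.rev i'))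
        rw [one_mul] at this
        rw [this, Function.update_self, Matrix.one_apply_ne, zero_mul]
        exact fun hc => hi (Fin.rev_injective hc.symm)
      · simp
    rw [Pi.add_apply, Finset.sum_apply, Finset.sum_congr rfl fun a _ => e1 a, e2,
      Finset.sum_apply] at h1
    simp only [Pi.smul_apply, e3, smul_eq_mul] at h1
    simp only [LinearMap.sub_apply, LinearMap.add_apply, LinearMap.sum_apply,
      LinearMap.smul_apply, LinearMap.comp_apply, Pi.sub_apply, Pi.add_apply, Finset.sum_apply,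
      Pi.smul_apply, smul_eq_mul]
    rw [h1, sub_self]

end Pool.OVO53
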