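import Pool.Agent.H53.OVO.Geo

set_option autoImplicit false
set_option linter.unusedSectionVars false

/-! pairing, exchange lemma, SPAN' -/

namespace Pool.OVO53

open Finset

variable {F : Type} [Field F] {h : ℕ} [NeZero h]

/-- the swap `(w, l) ↦ (update w m l, w m)` -/
def swp (m : ZMod h) : ((ZMod h → Fin 4) × Fin 4) ≃ ((ZMod h → Fin 4) × Fin 4) where
  toFun q := (Function.update q.1 m q.2, q.1 m)
  invFun q := (Function.update q.1 m q.2, q.1 m)
  left_inv q := by
    ext <;> simp
  right_inv q := by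
    ext <;> simp

theorem rev_update (w : ZMod h → Fin 4) (m : ZMod h) (l : Fin 4) :
    (fun i => Fin.rev (Function.update w m l i)) =
      Function.update (fun i => Fin.rev (w i)) m (Fin.rev l) := by
  funext i
  by_cases hi : i = m
  · subst hi
    simp
  · simp [Function.update_of_ne hi]

/-- adjoint of a matrix -/
def adj (A : Matrix (Fin 4) (Fin 4) F) : Matrix (Fin 4) (Fin 4) F :=
  fun i j => A (Fin.rev j) (Fin.rev i)

theorem frm_rho (m : ZMod h) (A : Matrix (Fin 4) (Fin 4) F) (p q : E F h) :
    frm (rho m A p) q = frm p (rho m (adj A) q) := by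
  unfold frm
  have e1 : ∑ w : ZMod h → Fin 4, rho m A p w * q (fun i => Fin.rev (w i)) =
      ∑ x : (ZMod h → Fin 4) × Fin 4,
        A (x.1 m) x.2 * p (Function.update x.1 m x.2) * q (fun i => Fin.rev (x.1 i)) := by
    rw [Fintype.sum_prod_type]
    refine Finset.sum_congr rfl fun w _ => ?_
    rw [rho_apply, Finset.sum_mul]
  have e2 : ∑ w : ZMod h → Fin 4, p w * rho m (adj A) q (fun i => Fin.rev (w i)) =
      ∑ x : (ZMod h → Fin 4) × Fin 4,
        p x.1 * (A x.2 (x.1 m) * q (fun i => Fin.rev (Function.update x.1 m x.2 i))) := by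
    rw [Fintype.sum_prod_type]
    refine Finset.sum_congr rfl fun w _ => ?_
    rw [rho_apply, Finset.mul_sum]
    rw [← Equiv.sum_comp Fin.revPerm]
    refine Finset.sum_congr rfl fun l _ => ?_
    rw [Fin.revPerm_apply, rev_update]
    simp [adj]
  rw [e1, e2, ← Equiv.sum_comp (swp m)]
  refine Finset.sum_congr rfl fun x _ => ?_
  simp only [swp, Equiv.coe_fn_mk, Function.update_self, Function.update_idem,
    Function.update_eq_self]
  ring

theorem frm_add_left (p q r : E F h) : frm (p + q) r = frm p r + frm q r := by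
  simp [frm, add_mul, Finset.sum_add_distrib]

theorem frm_smul_left (c : F) (p q : E F h) : frm (c • p) q = c * frm p q := by
  simp only [frm, Pi.smul_apply, smul_eq_mul, Finset.mul_sum]
  exact Finset.sum_congr rfl fun w _ => by ring

theorem frm_smul_right (c : F) (p q : E F h) : frm p (c • q) = c * frm p q := by
  simp only [frm, Pi.smul_apply, smul_eq_mul, Finset.mul_sum]
  exact Finset.sum_congr rfl fun w _ => by ring

theorem frm_sum_left {ι : Type} (s : Finset ι) (p : ι → E F h) (q : E F h) :
    frm (∑ i ∈ s, p i) q = ∑ i ∈ s, frm (p i) q := by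
  simp only [frm, Finset.sum_apply, Finset.sum_mul]
  rw [Finset.sum_comm]

theorem frm_sum_right {ι : Type} (s : Finset ι) (p : E F h) (q : ι → E F h) :
    frm p (∑ i ∈ s, q i) = ∑ i ∈ s, frm p (q i) := by
  simp only [frm, Finset.sum_apply, Finset.mul_sum]
  rw [Finset.sum_comm]

theorem frm_nondeg (p : E F h) (hp : ∀ q, frm p q = 0) : p = 0 := by
  funext w
  have := hp (Pi.single (fun i => Fin.rev (w i)) 1)
  unfold frm at this
  rw [Finset.sum_eq_single w] at this
  · simpa using this
  · intro b _ hb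
    rw [Pi.single_eq_of_ne, mul_zero]
    intro hcon
    apply hb
    funext i
    exact Fin.rev_injective (congrFun hcon i)
  · simp

theorem frm_span (Om : Set (Fin 4 → F)) (hsp : Submodule.span F (hat h '' Om) = ⊤)
    (p : E F h) (hp : ∀ y ∈ Om, frm p (hat h y) = 0) : p = 0 := by
  apply frm_nondeg
  let L : E F h →ₗ[F] F :=
    { toFun := fun q => frm p q
      map_add' := fun q r => by simp [frm, mul_add, Finset.sum_add_distrib]
      map_smul' := fun c q => by simp [frm_smul_right] }
  have : L = 0 := by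
    apply LinearMap.ext_on hsp
    rintro _ ⟨y, hy, rfl⟩
    exact hp y hy
  intro q
  exact LinearMap.congr_fun this q

/-- replace the letter at the digit `m` -/
def rep (F : Type) [Field F] (l r : Fin 4) : Matrix (Fin 4) (Fin 4) F :=
  Matrix.vecMulVec (Pi.single l (1 : F)) (Pi.single r (1 : F))

theorem rep_apply (l r i j : Fin 4) : rep F l r i j = if i = l ∧ j = r then 1 else 0 := by
  unfold rep
  rw [Matrix.vecMulVec_apply, Pi.single_apply, Pi.single_apply]
  by_cases h1 : i = l <;> by_cases h2 : j = r <;> simp [h1, h2]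

theorem rep_mul (a b c d : Fin 4) : rep F a b * rep F c d = if b = c then rep F a d else 0 := by
  ext i j
  rw [Matrix.mul_apply]
  simp only [rep_apply]
  by_cases h1 : b = c
  · subst h1
    rw [if_pos rfl, Finset.sum_eq_single b]
    · by_cases h2 : i = a <;> by_cases h3 : j = d <;> simp [rep_apply, h2, h3]
    · intro x _ hx
      simp [hx]
    · simp
  · rw [if_neg h1]
    apply Finset.sum_eq_zero
    intro x _
    by_cases h2 : x = b
    · subst h2
      simp [h1]
    · simp [h2]

theorem rep_sum : ∑ r, rep F r r = 1 := by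
  ext a b
  rw [Matrix.sum_apply, Fin.sum_univ_four]
  fin_cases a <;> fin_cases b <;> simp [rep_apply]

/-- exchange -/
theorem exch (m : ZMod h) (y : Fin 4 → F) (c l r : Fin 4) (p : E F h) :
    (y c) ^ (2 ^ m.val) * frm (rho m (rep F l r) p) (hat h y) =
      (y (Fin.rev l)) ^ (2 ^ m.val) * frm (rho m (rep F (Fin.rev c) r) p) (hat h y) := by
  rw [frm_rho, frm_rho]
  have e1 : ∀ l : Fin 4, rho m (adj (rep F l r)) (hat h y) = (y (Fin.rev l)) ^ (2 ^ m.val) •
      (fun w : ZMod h → Fin 4 => if w m = Fin.rev r then hatO m y w else 0) := by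
    intro l
    funext w
    rw [rho_hat, Pi.smul_apply, smul_eq_mul]
    have e2 : ∀ j, adj (rep F l r) (w m) j * (y j) ^ (2 ^ m.val) =
        if j = Fin.rev l then (if w m = Fin.rev r then (y (Fin.rev l)) ^ (2 ^ m.val) else 0) else 0 := by
      intro j
      unfold adj
      rw [rep_apply]
      by_cases h1 : j = Fin.rev l
      · subst h1
        by_cases h2 : w m = Fin.rev r
        · simp [h2]
        · have : ¬ (Fin.rev (w m) = r) := fun hc => h2 (by rw [← hc, Fin.rev_rev])
          simp [h2, this]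
      · have : ¬ (Fin.rev j = l) := fun hc => h1 (by rw [← hc, Fin.rev_rev])
        simp [h1, this]
    rw [Finset.sum_congr rfl fun j _ => e2 j, Finset.sum_ite_eq' ]
    by_cases h2 : w m = Fin.rev r <;> simp [h2]
  rw [e1, e1, frm_smul_right, frm_smul_right, Fin.rev_rev]
  ring

theorem exists_ne (y : Fin 4 → F) (hy : y ≠ 0) : ∃ l, y (Fin.rev l) ≠ 0 := by
  by_contra hcon
  push Not at hcon
  apply hy
  funext l
  have := hcon (Fin.rev l)
  rwa [Fin.rev_rev] at this

/-- SPAN' : pairing form. -/
theorem span_pair (Om : Set (Fin 4 → F))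
    (hsp : Submodule.span F (hat h '' Om) = ⊤) (m : ZMod h)
    (X : Fin 4 → (E F h →ₗ[F] E F h)) (hX : ∀ i, Com m (X i))
    (h0 : ∀ y ∈ Om, ∀ p, ∑ i, (y i) ^ (2 ^ m.val) * frm (X i p) (hat h y) = 0) :
    ∀ i, X i = 0 := by
  have key : ∀ (r : Fin 4) (p : E F h), ∑ i, rho m (rep F (Fin.rev i) r) (X i p) = 0 := by
    intro r p
    apply frm_span Om hsp
    intro y hy
    by_cases hy0 : y = 0
    · rw [hat_zero y hy0]
      simp [frm]
    · obtain ⟨l, hl⟩ := exists_ne y hy0
      have h1 := h0 y hy (rho m (rep F l r) p)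
      have e1 : ∀ i, (y i) ^ (2 ^ m.val) * frm (X i (rho m (rep F l r) p)) (hat h y) =
          (y (Fin.rev l)) ^ (2 ^ m.val) * frm (rho m (rep F (Fin.rev i) r) (X i p)) (hat h y) := by
        intro i
        rw [hX i, exch]
      rw [Finset.sum_congr rfl fun i _ => e1 i, ← Finset.mul_sum, ← frm_sum_left] at h1
      exact (mul_eq_zero.mp h1).resolve_left (pow_ne_zero _ hl)
  intro i
  refine LinearMap.ext fun p => ?_
  have h2 : ∀ r, rho m (rep F r r) (X i p) = 0 := by
    intro r
    have h3 := congrArg (rho m (rep F r (Fin.rev i))) (key r p)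
    rw [map_sum, map_zero] at h3
    rw [← h3, Finset.sum_eq_single i]
    · rw [← rho_mul, rep_mul, if_pos rfl]
    · intro j _ hj
      rw [← rho_mul, rep_mul, if_neg (fun hc => hj (Fin.rev_injective hc).symm)]
      funext w
      simp [rho_apply]
    · simp
  have h4 : X i p = ∑ r, rho m (rep F r r) (X i p) := by
    rw [← rho_sum, rep_sum, rho_one]
    rfl
  rw [h4, Finset.sum_congr rfl fun r _ => h2 r]
  simp

end Pool.OVO53
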