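import Pool.Agent.H53.OVO.Base0

set_option autoImplicit false
set_option linter.unusedSectionVars false

/-! SPAN lemma and the slot lemma (G) on the one space `E`. -/

namespace Pool.OVO53

open Finset

variable {F : Type} [Field F] {h : ℕ} [NeZero h]

/-- the word without the digit `m` -/
def hatO (m : ZMod h) (y : Fin 4 → F) (w : ZMod h → Fin 4) : F :=
  ∏ i ∈ Finset.univ.erase m, (y (w i)) ^ (2 ^ i.val)

theorem hat_eq (m : ZMod h) (y : Fin 4 → F) (w : ZMod h → Fin 4) :
    hat h y w = (y (w m)) ^ (2 ^ m.val) * hatO m y w := by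
  unfold hat hatO
  rw [Finset.mul_prod_erase Finset.univ (fun i : ZMod h => (y (w i)) ^ (2 ^ i.val)) (Finset.mem_univ m)]

theorem hatO_update (m : ZMod h) (y : Fin 4 → F) (w : ZMod h → Fin 4) (l : Fin 4) :
    hatO m y (Function.update w m l) = hatO m y w := by
  unfold hatO
  refine Finset.prod_congr rfl fun i hi => ?_
  rw [Function.update_of_ne (Finset.ne_of_mem_erase hi)]

theorem hat_update (m : ZMod h) (y : Fin 4 → F) (w : ZMod h → Fin 4) (l : Fin 4) :
    hat h y (Function.update w m l) = (y l) ^ (2 ^ m.val) * hatO m y w := by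
  rw [hat_eq m, hatO_update, Function.update_self]

theorem rho_hat (m : ZMod h) (A : Matrix (Fin 4) (Fin 4) F) (y : Fin 4 → F)
    (w : ZMod h → Fin 4) :
    rho m A (hat h y) w = (∑ l, A (w m) l * (y l) ^ (2 ^ m.val)) * hatO m y w := by
  rw [rho_apply, Finset.sum_mul]
  refine Finset.sum_congr rfl fun l _ => ?_
  rw [hat_update]
  ring

theorem hat_zero (y : Fin 4 → F) (hy : y = 0) : hat h y = 0 := by
  funext w
  rw [hat_eq (0 : ZMod h), hy]
  simp

/-- SPAN lemma: cancel the letter at the digit `m`. -/
theorem span_lemma (Om : Set (Fin 4 → F))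
    (hsp : Submodule.span F (hat h '' Om) = ⊤) (m : ZMod h)
    (X : Fin 4 → (E F h →ₗ[F] E F h)) (hX : ∀ i, Com m (X i))
    (h0 : ∀ y ∈ Om, ∑ i, (y i) ^ (2 ^ m.val) • X i (hat h y) = 0) : ∀ i, X i = 0 := by
  classical
  -- the operator sum X i ∘ rho (v e_i^T) vanishes
  have key : ∀ v : Fin 4 → F, ∀ p : E F h,
      ∑ i, X i (rho m (Matrix.vecMulVec v (Pi.single i 1)) p) = 0 := by
    intro v p
    have hlin : (∑ i, (X i).comp (rho m (Matrix.vecMulVec v (Pi.single i (1 : F))))) = 0 := by
      apply LinearMap.ext_on hsp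
      rintro _ ⟨y, hy, rfl⟩
      simp only [LinearMap.coe_sum, Finset.sum_apply, LinearMap.comp_apply, LinearMap.zero_apply]
      by_cases hy0 : y = 0
      · rw [hat_zero y hy0]
        simp
      · obtain ⟨l0, hl0⟩ : ∃ l, y l ≠ 0 := by
          by_contra hcon
          push Not at hcon
          exact hy0 (funext hcon)
        have hl1 : (y l0) ^ (2 ^ m.val) ≠ 0 := pow_ne_zero _ hl0
        -- rho (v e_i^T) hat = y_i^(m) * rho (v lam^T) hat
        have e1 : ∀ i, rho m (Matrix.vecMulVec v (Pi.single i (1 : F))) (hat h y) =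
            (y i) ^ (2 ^ m.val) •
              rho m (Matrix.vecMulVec v (Pi.single l0 ((y l0) ^ (2 ^ m.val))⁻¹)) (hat h y) := by
          intro i
          funext w
          rw [Pi.smul_apply, rho_hat, rho_hat]
          have e2 : ∑ l, Matrix.vecMulVec v (Pi.single i (1 : F)) (w m) l * (y l) ^ (2 ^ m.val) =
              v (w m) * (y i) ^ (2 ^ m.val) := by
            rw [Finset.sum_eq_single i]
            · simp [Matrix.vecMulVec_apply]
            · intro b _ hb
              simp [Matrix.vecMulVec_apply, Pi.single_eq_of_ne hb]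
            · simp
          have e3 : ∑ l, Matrix.vecMulVec v (Pi.single l0 ((y l0) ^ (2 ^ m.val))⁻¹) (w m) l *
              (y l) ^ (2 ^ m.val) = v (w m) := by
            rw [Finset.sum_eq_single l0]
            · simp [Matrix.vecMulVec_apply, hl1]
            · intro b _ hb
              simp [Matrix.vecMulVec_apply, Pi.single_eq_of_ne hb]
            · simp
          rw [e2, e3, smul_eq_mul]
          ring
        have e4 : ∀ i, X i (rho m (Matrix.vecMulVec v (Pi.single i (1 : F))) (hat h y)) =
            rho m (Matrix.vecMulVec v (Pi.single l0 ((y l0) ^ (2 ^ m.val))⁻¹))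
              ((y i) ^ (2 ^ m.val) • X i (hat h y)) := by
          intro i
          rw [e1, map_smul, hX i, ← map_smul]
        rw [Finset.sum_congr rfl fun i _ => e4 i, ← map_sum, h0 y hy, map_zero]
    have := LinearMap.congr_fun hlin p
    simpa using this
  intro l
  refine LinearMap.ext fun p => ?_
  have hid : p = ∑ r, rho m (Matrix.vecMulVec (Pi.single r (1 : F)) (Pi.single r (1 : F))) p := by
    have e1 : (∑ r : Fin 4, Matrix.vecMulVec (Pi.single r (1 : F)) (Pi.single r (1 : F))) =
        (1 : Matrix (Fin 4) (Fin 4) F) := by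
      ext a b
      rw [Matrix.sum_apply]
      fin_cases a <;> fin_cases b <;> simp [Matrix.vecMulVec_apply, Fin.sum_univ_four, Pi.single_apply]
    rw [← rho_sum, e1, rho_one]
    rfl
  have hr : ∀ r : Fin 4, X l (rho m (Matrix.vecMulVec (Pi.single r (1 : F)) (Pi.single r (1 : F))) p) = 0 := by
    intro r
    have k1 := key (Pi.single r 1)
      (rho m (Matrix.vecMulVec (Pi.single l (1 : F)) (Pi.single r (1 : F))) p)
    rw [Finset.sum_eq_single l] at k1
    · rw [← rho_mul] at k1
      have e2 : Matrix.vecMulVec (Pi.single r (1 : F)) (Pi.single l (1 : F)) *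
          Matrix.vecMulVec (Pi.single l (1 : F)) (Pi.single r (1 : F)) =
          Matrix.vecMulVec (Pi.single r (1 : F)) (Pi.single r (1 : F)) := by
        rw [Matrix.vecMulVec_mul_vecMulVec]
        simp
      rw [e2] at k1
      exact k1
    · intro b _ hb
      rw [← rho_mul]
      have e2 : Matrix.vecMulVec (Pi.single r (1 : F)) (Pi.single b (1 : F)) *
          Matrix.vecMulVec (Pi.single l (1 : F)) (Pi.single r (1 : F)) = 0 := by
        rw [Matrix.vecMulVec_mul_vecMulVec]
        have : (Pi.single b (1 : F) : Fin 4 → F) ⬝ᵥ (Pi.single l (1 : F)) = 0 := by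
          simp [Pi.single_apply, hb.symm]
        rw [this]
        simp
      rw [e2]
      have : rho m (0 : Matrix (Fin 4) (Fin 4) F) p = 0 := by
        funext w
        simp [rho_apply]
      rw [this, map_zero]
    · simp
  rw [hid, map_sum, Finset.sum_congr rfl fun r _ => hr r]
  simp

end Pool.OVO53
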