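import Pool.Agent.H53.OVO.Base0
import Pool.Agent.H53.OVO.Slot

set_option autoImplicit false
set_option linter.unusedSectionVars false

/-! the tables `jm` and the slot lemma. -/

namespace Pool.OVO53

open Finset

variable {F : Type} [Field F] {h : ℕ} [NeZero h]

/-- `j_xs, j_xt, j_sf, j_tf`; also the matrices `gamma(x), gamma(s), gamma(t), gamma(f)`. -/
def jm (F : Type) [Field F] : Fin 4 → Matrix (Fin 4) (Fin 4) F
  | 0 => !![0, 0, 1, 0; 0, 0, 0, 1; 0, 0, 0, 0; 0, 0, 0, 0]
  | 1 => !![0, 1, 0, 0; 0, 0, 0, 0; 0, 0, 0, 1; 0, 0, 0, 0]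
  | 2 => !![0, 0, 0, 0; 1, 0, 0, 0; 0, 0, 0, 0; 0, 0, 1, 0]
  | 3 => !![0, 0, 0, 0; 0, 0, 0, 0; 1, 0, 0, 0; 0, 1, 0, 0]

/-- the quadratic form -/
def Qf (y : Fin 4 → F) : F := y 0 * y 3 + y 1 * y 2

/-- (g1) -/
theorem g1 [CharP F 2] (e y : Fin 4 → F) (mu : F)
    (hj : ∀ l, ∑ b, e b * ∑ l', jm F b l l' * y l' = mu * y l) (b : Fin 4) :
    Qf y * e b = ∑ c, (y c) ^ 2 * ∑ b', jm F c b b' * e b' := by
  have h2 : (2 : F) = 0 := CharTwo.two_eq_zero
  have h0 := hj 0
  have h1 := hj 1
  have h2' := hj 2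
  have h3 := hj 3
  simp [Fin.sum_univ_four, jm] at h0 h1 h2' h3
  fin_cases b
  · simp [Fin.sum_univ_four, jm, Qf]
    linear_combination (y 1) * h0 + (y 0) * h1 - (y 1 ^ 2 * e 1 + y 0 ^ 2 * e 2) * h2
      + (mu * y 0 * y 1) * h2
  · simp [Fin.sum_univ_four, jm, Qf]
    linear_combination (y 2) * h0 + (y 0) * h2' - (y 2 ^ 2 * e 0 + y 0 ^ 2 * e 3) * h2
      + (mu * y 0 * y 2) * h2
  · simp [Fin.sum_univ_four, jm, Qf]
    linear_combination (y 3) * h1 + (y 1) * h3 - (y 3 ^ 2 * e 0 + y 1 ^ 2 * e 3) * h2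
      + (mu * y 1 * y 3) * h2
  · simp [Fin.sum_univ_four, jm, Qf]
    linear_combination (y 3) * h2' + (y 2) * h3 - (y 3 ^ 2 * e 1 + y 2 ^ 2 * e 2) * h2
      + (mu * y 2 * y 3) * h2

/-- a vector `u` of `E` has the factor `y^(m)` at the digit `m` -/
def Fac (m : ZMod h) (y : Fin 4 → F) (u : E F h) : Prop :=
  ∀ w l l', (y l') ^ (2 ^ m.val) * u (Function.update w m l) =
    (y l) ^ (2 ^ m.val) * u (Function.update w m l')

theorem fac_hat (m : ZMod h) (y : Fin 4 → F) : Fac m y (hat h y) := by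
  intro w l l'
  rw [hat_update, hat_update]
  ring

theorem fac_op (m : ZMod h) (y : Fin 4 → F) (X : E F h →ₗ[F] E F h) (hX : Com m X)
    (u : E F h) (hu : Fac m y u) : Fac m y (X u) := by
  intro w l l'
  -- the matrix e_l (y_l' e_l^* - y_l e_l'^*)
  have hz : rho m (Matrix.vecMulVec (Pi.single l (1 : F))
      ((y l') ^ (2 ^ m.val) • Pi.single l (1 : F) - (y l) ^ (2 ^ m.val) • Pi.single l' (1 : F))) u
      = 0 := by
    funext w'
    rw [rho_apply, Pi.zero_apply]
    have e1 : ∀ r : Fin 4, Matrix.vecMulVec (Pi.single l (1 : F))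
      ((y l') ^ (2 ^ m.val) • Pi.single l (1 : F) - (y l) ^ (2 ^ m.val) • Pi.single l' (1 : F))
        (w' m) r * u (Function.update w' m r) =
        (Pi.single l (1 : F) : Fin 4 → F) (w' m) *
          ((y l') ^ (2 ^ m.val) * ((Pi.single l (1 : F) : Fin 4 → F) r * u (Function.update w' m r)) -
           (y l) ^ (2 ^ m.val) * ((Pi.single l' (1 : F) : Fin 4 → F) r * u (Function.update w' m r))) := by
      intro r
      rw [Matrix.vecMulVec_apply]
      simp only [Pi.sub_apply, Pi.smul_apply, smul_eq_mul]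
      ring
    rw [Finset.sum_congr rfl fun r _ => e1 r, ← Finset.mul_sum, Finset.sum_sub_distrib,
      ← Finset.mul_sum, ← Finset.mul_sum]
    have e2 : ∀ i : Fin 4, ∑ r, (Pi.single i (1 : F) : Fin 4 → F) r * u (Function.update w' m r) =
        u (Function.update w' m i) := by
      intro i
      rw [Finset.sum_eq_single i]
      · simp
      · intro b _ hb
        rw [Pi.single_eq_of_ne hb, zero_mul]
      · simp
    rw [e2, e2, hu w' l l', sub_self, mul_zero]
  have h1 := congrArg X hz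
  rw [hX, map_zero] at h1
  have h2 := congrFun h1 (Function.update w m l)
  rw [rho_apply, Pi.zero_apply] at h2
  simp only [Function.update_self, Function.update_idem] at h2
  have e1 : ∀ r : Fin 4, Matrix.vecMulVec (Pi.single l (1 : F))
      ((y l') ^ (2 ^ m.val) • Pi.single l (1 : F) - (y l) ^ (2 ^ m.val) • Pi.single l' (1 : F))
        l r * X u (Function.update w m r) =
          ((y l') ^ (2 ^ m.val) * ((Pi.single l (1 : F) : Fin 4 → F) r * X u (Function.update w m r)) -
           (y l) ^ (2 ^ m.val) * ((Pi.single l' (1 : F) : Fin 4 → F) r * X u (Function.update w m r))) := by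
    intro r
    rw [Matrix.vecMulVec_apply]
    simp only [Pi.sub_apply, Pi.smul_apply, smul_eq_mul, Pi.single_eq_same, one_mul]
    ring
  rw [Finset.sum_congr rfl fun r _ => e1 r, Finset.sum_sub_distrib,
      ← Finset.mul_sum, ← Finset.mul_sum] at h2
  have e2 : ∀ i : Fin 4, ∑ r, (Pi.single i (1 : F) : Fin 4 → F) r * X u (Function.update w m r) =
      X u (Function.update w m i) := by
    intro i
    rw [Finset.sum_eq_single i]
    · simp
    · intro b _ hb
      rw [Pi.single_eq_of_ne hb, zero_mul]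
    · simp
  rw [e2, e2] at h2
  exact sub_eq_zero.mp h2

theorem fac_add (m : ZMod h) (y : Fin 4 → F) (u v : E F h) (hu : Fac m y u) (hv : Fac m y v) :
    Fac m y (u + v) := by
  intro w l l'
  simp only [Pi.add_apply, mul_add, hu w l l', hv w l l']

theorem fac_smul (m : ZMod h) (y : Fin 4 → F) (c : F) (u : E F h) (hu : Fac m y u) :
    Fac m y (c • u) := by
  intro w l l'
  simp only [Pi.smul_apply, smul_eq_mul]
  linear_combination c * hu w l l'

theorem fac_sum {ι : Type} (s : Finset ι) (m : ZMod h) (y : Fin 4 → F) (u : ι → E F h)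
    (hu : ∀ i, Fac m y (u i)) : Fac m y (∑ i ∈ s, u i) := by
  intro w l l'
  simp only [Finset.sum_apply, Finset.mul_sum]
  exact Finset.sum_congr rfl fun i _ => hu i w l l'

/-- (g2) the slot lemma, vector form. -/
theorem slot_vec [CharP F 2] (k : ZMod h) (y : Fin 4 → F) (u : Fin 4 → E F h) (u0 : E F h)
    (hu : ∀ b, Fac k y (u b)) (hu0 : Fac k y u0) (mu : F)
    (hE : ∑ b, rho k (jm F b) (u b) + u0 = mu • hat h y)
    (hy : y ≠ 0) (b : Fin 4) :
    (Qf y) ^ (2 ^ k.val) • u b = ∑ c, ((y c) ^ (2 ^ k.val)) ^ 2 • ∑ b', jm F c b b' • u b' := by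
  obtain ⟨l0, hl0⟩ : ∃ l, y l ≠ 0 := by
    by_contra hcon
    push Not at hcon
    exact hy (funext hcon)
  have hl1 : (y l0) ^ (2 ^ k.val) ≠ 0 := pow_ne_zero _ hl0
  funext w
  -- the constants
  set c : Fin 4 → F := fun b => u b (Function.update w k l0) / (y l0) ^ (2 ^ k.val) with hc
  have hcb : ∀ b l, u b (Function.update w k l) = c b * (y l) ^ (2 ^ k.val) := by
    intro b l
    have := hu b w l l0
    rw [hc]
    field_simp
    linear_combination this
  have hc0 : ∀ l, u0 (Function.update w k l) =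
      u0 (Function.update w k l0) / (y l0) ^ (2 ^ k.val) * (y l) ^ (2 ^ k.val) := by
    intro l
    have := hu0 w l l0
    field_simp
    linear_combination this
  have hj : ∀ l, ∑ b, c b * ∑ l', jm F b l l' * (y l') ^ (2 ^ k.val) =
      (mu * hatO k y w - u0 (Function.update w k l0) / (y l0) ^ (2 ^ k.val)) *
        (y l) ^ (2 ^ k.val) := by
    intro l
    have h1 := congrFun hE (Function.update w k l)
    rw [Pi.add_apply, Finset.sum_apply, Pi.smul_apply, hat_update, hc0, smul_eq_mul] at h1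
    have h2 : ∀ b, rho k (jm F b) (u b) (Function.update w k l) =
        c b * ∑ l', jm F b l l' * (y l') ^ (2 ^ k.val) := by
      intro b
      rw [rho_apply, Finset.mul_sum]
      refine Finset.sum_congr rfl fun l' _ => ?_
      rw [Function.update_self, Function.update_idem, hcb]
      ring
    rw [Finset.sum_congr rfl fun b _ => h2 b] at h1
    linear_combination h1
  have hg := g1 c (fun l => (y l) ^ (2 ^ k.val)) _ hj b
  have hQ : Qf (fun l => (y l) ^ (2 ^ k.val)) = (Qf y) ^ (2 ^ k.val) := by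
    unfold Qf
    rw [add_pow_char_pow, mul_pow, mul_pow]
  rw [hQ] at hg
  have hw : ∀ b, u b w = c b * (y (w k)) ^ (2 ^ k.val) := by
    intro b
    have := hcb b (w k)
    rwa [Function.update_eq_self] at this
  simp only [Pi.smul_apply, Finset.sum_apply, smul_eq_mul]
  rw [hw b, ← mul_assoc, hg, Finset.sum_mul]
  refine Finset.sum_congr rfl fun d _ => ?_
  rw [mul_assoc, Finset.sum_mul]
  refine congrArg _ (Finset.sum_congr rfl fun b' _ => ?_)
  rw [hw b']
  ring

end Pool.OVO53
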